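import Mathlib

/-!
# MP_eb9533_al: pure inner forms of `PGL n`. Definitions

The pure inner forms of `PGL n` over the field `k` are the groups `PGL m D`, `n = m d`, `D` a central
division algebra over `k` of dimension `d ^ 2`. The dual group is `SL n ℂ`.
-/

set_option autoImplicit false

namespace Pool.Agent.WF70

open Module TensorProduct

section nilpotent

variable {F : Type} [Field F] {n : ℕ}

/-- the number of Jordan blocks of size greater than `i` of a nilpotent matrix -/
noncomputable def blocks (N : Matrix (Fin n) (Fin n) F) (i : ℕ) : ℕ :=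
  (N ^ i).rank - (N ^ (i + 1)).rank

/-- the conjugacy class of a matrix -/
def orb (Z : Matrix (Fin n) (Fin n) F) : Set (Matrix (Fin n) (Fin n) F) :=
  {Y | ∃ g : (Matrix (Fin n) (Fin n) F)ˣ, Y = g.val * Z * g.inv}

/-- the Zariski closure of a set of matrices -/
def zcl (S : Set (Matrix (Fin n) (Fin n) F)) : Set (Matrix (Fin n) (Fin n) F) :=
  {Z | ∀ f : MvPolynomial (Fin n × Fin n) F,
    (∀ Y ∈ S, MvPolynomial.eval (fun x => Y x.1 x.2) f = 0) →
      MvPolynomial.eval (fun x => Z x.1 x.2) f = 0}

/-- `Y` is in the nilpotent orbit dual to the one of `N` (Barbasch - Vogan - Spaltenstein duality in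
type `A`): the sizes of the Jordan blocks of `Y` are the numbers `blocks N 0, blocks N 1, …`, that is
the partition of `Y` is the transpose of the partition of `N`. The matrices may have coefficients in
different fields. -/
def IsDual {K : Type} [Field K] (N : Matrix (Fin n) (Fin n) F) (Y : Matrix (Fin n) (Fin n) K) :
    Prop :=
  IsNilpotent N ∧ IsNilpotent Y ∧
    ∀ j, blocks Y j = ((Finset.range n).filter fun i => j < blocks N i).card

end nilpotent

/-- A discrete Langlands parameter `W × SL₂ → GL n ℂ`: a homomorphism `φ` from the group `W` to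
`GL n ℂ` and a triple `h, e, f` with the relations of `sl₂` that commutes with `φ`, such that there is
no common invariant subspace except `0` and the whole space. The nilpotent element of the parameter
is `e`. The parameters of `PGL n` and its inner forms are those with `φ(W)` in `SL n ℂ`. -/
structure Param (W : Type) [Group W] (n : ℕ) where
  φ : W →* Matrix (Fin n) (Fin n) ℂ
  h : Matrix (Fin n) (Fin n) ℂ
  e : Matrix (Fin n) (Fin n) ℂ
  f : Matrix (Fin n) (Fin n) ℂ
  he : h * e - e * h = (2 : ℂ) • e
  hf : h * f - f * h = -((2 : ℂ) • f)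
  ef : e * f - f * e = h
  comm_e : ∀ w, φ w * e = e * φ w
  comm_h : ∀ w, φ w * h = h * φ w
  comm_f : ∀ w, φ w * f = f * φ w
  irr : ∀ U : Submodule ℂ (Fin n → ℂ), (∀ w, ∀ u ∈ U, (φ w).mulVec u ∈ U) →
    (∀ u ∈ U, e.mulVec u ∈ U) → (∀ u ∈ U, h.mulVec u ∈ U) → (∀ u ∈ U, f.mulVec u ∈ U) →
    U = ⊥ ∨ U = ⊤

/-- The enhancement of the parameter `P` with the character `z ↦ z ^ c` of the centre `μ_n` of
`SL n ℂ` is cuspidal. If `a` is the size of the Jordan blocks of `e`, the identity component of the
centraliser of `φ(W)` is `SL a ℂ` and `e` is regular nilpotent in it; the enhancement is cuspidal if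
and only if its restriction to the centre `μ_a` of `SL a ℂ` is faithful. -/
def Param.IsCuspidal {W : Type} [Group W] {n : ℕ} (P : Param W n) (c : ℕ) : Prop :=
  ∀ z : ℂ, z ^ nilpotencyClass P.e = 1 → z ^ c = 1 → z = 1

section wavefront

variable {k K D : Type} [Field k] [Field K] [Algebra k K] [DivisionRing D] [Algebra k D] {m n : ℕ}
  (Ψ : K ⊗[k] Matrix (Fin m) (Fin m) D ≃ₐ[K] Matrix (Fin n) (Fin n) K)

/-- the saturation over the algebraic closure of the orbit of `X ∈ M m D` -/
def sat (X : Matrix (Fin m) (Fin m) D) : Set (Matrix (Fin n) (Fin n) K) := orb (Ψ (1 ⊗ₜ X))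

/-- The geometric wavefront set for a local character expansion with the coefficients `c X` (the
coefficient of the orbit of `X`): the maximal saturations, for the closure order, of the nilpotent
orbits with nonzero coefficient. -/
def geoWF (c : Matrix (Fin m) (Fin m) D → ℂ) : Set (Set (Matrix (Fin n) (Fin n) K)) :=
  {O | (∃ X, IsNilpotent X ∧ c X ≠ 0 ∧ O = sat Ψ X) ∧
    ∀ X, IsNilpotent X → c X ≠ 0 → O ⊆ zcl (sat Ψ X) → sat Ψ X ⊆ zcl O}

end wavefront

end Pool.Agent.WF70
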