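import Pool.Agent.WF70.Defs

/-!
# MP_eb9533_al: groups of inner type A. Definitions

A connected reductive group `G` over `k` is of inner type A if its adjoint group is a product of groups
`Res_{k i / k} PGL (n i)`, `i : ι`. A pure inner form has the adjoint group
`∏ Res_{k i / k} PGL (m i) (D i)`, `n i = m i * d i`. Over an algebraic closure `K` of `k` the factors
are indexed by the pairs `j` of an index `i = π j` and an embedding of `k i` into `K`.
-/

set_option autoImplicit false

namespace Pool.Agent.WF70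

open TensorProduct

section products

variable {J K : Type} [Field K] {n : J → ℕ}

/-- the orbit of a family of matrices under conjugation by families of invertible matrices -/
def orbP (Z : ∀ j, Matrix (Fin (n j)) (Fin (n j)) K) :
    Set (∀ j, Matrix (Fin (n j)) (Fin (n j)) K) :=
  {Y | ∃ g : ∀ j, (Matrix (Fin (n j)) (Fin (n j)) K)ˣ, ∀ j, Y j = (g j).val * Z j * (g j).inv}

/-- the Zariski closure of a set of families of matrices -/
def zclP (S : Set (∀ j, Matrix (Fin (n j)) (Fin (n j)) K)) :
    Set (∀ j, Matrix (Fin (n j)) (Fin (n j)) K) :=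
  {Z | ∀ f : MvPolynomial (Σ j, Fin (n j) × Fin (n j)) K,
    (∀ Y ∈ S, MvPolynomial.eval (fun x => Y x.1 x.2.1 x.2.2) f = 0) →
      MvPolynomial.eval (fun x => Z x.1 x.2.1 x.2.2) f = 0}

end products

section wavefront

variable {ι J K : Type} {k D : ι → Type} (π : J → ι) [∀ i, Field (k i)] [Field K]
  [∀ j, Algebra (k (π j)) K] [∀ i, DivisionRing (D i)] [∀ i, Algebra (k i) (D i)] {m : ι → ℕ}
  {n : J → ℕ} (Ψ : ∀ j, K ⊗[k (π j)] Matrix (Fin (m (π j))) (Fin (m (π j))) (D (π j)) ≃ₐ[K]
    Matrix (Fin (n j)) (Fin (n j)) K)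

/-- the saturation over the algebraic closure of the orbit of the family `X i ∈ M (m i) (D i)` -/
def satP (X : ∀ i, Matrix (Fin (m i)) (Fin (m i)) (D i)) :
    Set (∀ j, Matrix (Fin (n j)) (Fin (n j)) K) :=
  orbP fun j => Ψ j (1 ⊗ₜ X (π j))

/-- The geometric wavefront set for a local character expansion with the coefficients `c X` (the
coefficient of the orbit of the family `X`): the maximal saturations, for the closure order, of the
nilpotent orbits with nonzero coefficient. -/
def geoWFP (c : (∀ i, Matrix (Fin (m i)) (Fin (m i)) (D i)) → ℂ) :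
    Set (Set (∀ j, Matrix (Fin (n j)) (Fin (n j)) K)) :=
  {O | (∃ X, (∀ i, IsNilpotent (X i)) ∧ c X ≠ 0 ∧ O = satP π Ψ X) ∧
    ∀ X, (∀ i, IsNilpotent (X i)) → c X ≠ 0 → O ⊆ zclP (satP π Ψ X) → satP π Ψ X ⊆ zclP O}

end wavefront

end Pool.Agent.WF70
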