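import Pool.Agent.WF70.One
import Pool.Agent.WF70.DefsA

/-!
# MP_eb9533_al: groups of inner type A. Proofs
-/

set_option autoImplicit false

namespace Pool.Agent.WF70

open TensorProduct

/-! ## One factor -/

section factor

variable {W : Type} [Group W] {m d r : ℕ}

/-- The block size divides the degree of the division algebra. -/
theorem class_dvd (hm : 0 < m) (hd : 0 < d) (P : Param W (m * d)) (hP : P.IsCuspidal (m * r)) :
    nilpotencyClass P.e ∣ d := by
  obtain ⟨a, p, hn, he0, her, hcl⟩ := P.rect (Nat.mul_pos hm hd)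
  rw [hcl]
  exact cuspidal_arith (Nat.succ_pos a) ⟨p + 1, hn⟩ fun z h1 h2 => hP z (by rw [hcl]; exact h1) h2

variable {k K D : Type} [Field k] [Field K] [IsAlgClosed K] [Algebra k K] [DivisionRing D]
  [Algebra k D]

/-- The facts about one factor. -/
theorem factor_facts (hm : 0 < m) (hd : 0 < d)
    (Ψ : K ⊗[k] Matrix (Fin m) (Fin m) D ≃ₐ[K] Matrix (Fin (m * d)) (Fin (m * d)) K)
    (P : Param W (m * d)) (hP : P.IsCuspidal (m * r)) :
    ∃ Y : Matrix (Fin (m * d)) (Fin (m * d)) K,
      (∀ Z : Matrix (Fin (m * d)) (Fin (m * d)) K, IsDual P.e Z ↔ Z ∈ orb Y) ∧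
      (∀ X, IsNilpotent X → sat Ψ X ⊆ zcl (orb Y)) ∧
      (∀ X, IsNilpotent X →
        (sat Ψ X = orb Y ↔ nilpotencyClass P.e = d ∧ X ^ (m - 1) ≠ 0)) ∧
      ∀ X X', IsNilpotent X → IsNilpotent X' → sat Ψ X = orb Y → orb Y ⊆ zcl (sat Ψ X') →
        sat Ψ X' = orb Y := by
  classical
  obtain ⟨Y, hY, hc⟩ := one_factor hm hd Ψ P hP
  have hset : ∀ X, IsNilpotent X →
      geoWF Ψ (fun Z => if Z = X then (1 : ℂ) else 0) = {sat Ψ X} := by
    intro X hX
    ext O
    constructor
    · rintro ⟨⟨X0, _, h0, rfl⟩, _⟩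
      have : X0 = X := by
        by_contra hne
        exact h0 (if_neg hne)
      rw [this]
      rfl
    · rintro rfl
      refine ⟨⟨X, hX, by simp, rfl⟩, fun X0 _ h0 h => ?_⟩
      have : X0 = X := by
        by_contra hne
        exact h0 (if_neg hne)
      rw [this] at h ⊢
      exact h
  refine ⟨Y, hY, ?_, ?_, ?_⟩
  · intro X hX
    exact (hc _).1 _ (by rw [hset X hX]; rfl)
  · intro X hX
    have h := (hc fun Z => if Z = X then (1 : ℂ) else 0).2
    rw [hset X hX, Set.singleton_eq_singleton_iff] at h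
    rw [h]
    constructor
    · rintro ⟨h1, X0, _, h2, h3⟩
      have : X0 = X := by
        by_contra hne
        exact h3 (if_neg hne)
      exact ⟨h1, this ▸ h2⟩
    · rintro ⟨h1, h2⟩
      exact ⟨h1, X, hX, h2, by simp⟩
  · intro X X' hX hX' hXY hcl
    have h1 : nilpotencyClass P.e = d ∧ X ^ (m - 1) ≠ 0 := by
      have h := (hc fun Z => if Z = X then (1 : ℂ) else 0).2
      rw [hset X hX, Set.singleton_eq_singleton_iff] at h
      obtain ⟨h1, X0, _, h2, h3⟩ := h.1 hXY
      have : X0 = X := by
        by_contra hne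
        exact h3 (if_neg hne)
      exact ⟨h1, this ▸ h2⟩
    have h2 := (hc fun Z => if Z = X ∨ Z = X' then (1 : ℂ) else 0).2.2
      ⟨h1.1, X, hX, h1.2, by simp⟩
    have h3 : sat Ψ X' ∈ geoWF Ψ (fun Z => if Z = X ∨ Z = X' then (1 : ℂ) else 0) := by
      refine ⟨⟨X', hX', by simp, rfl⟩, fun X0 _ h0 h => ?_⟩
      have h4 : X0 = X ∨ X0 = X' := by
        by_contra hne
        exact h0 (if_neg hne)
      rcases h4 with h4 | h4
      · rw [h4, hXY]
        exact hcl
      · rw [h4] at h ⊢
        exact h
    rw [h2] at h3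
    exact h3

end factor

/-! ## Products -/

section products

variable {J K : Type} [Field K] {n : J → ℕ}

theorem mem_orbP {Y Z : ∀ j, Matrix (Fin (n j)) (Fin (n j)) K} :
    Y ∈ orbP Z ↔ ∀ j, Y j ∈ orb (Z j) := by
  constructor
  · rintro ⟨g, hg⟩ j
    exact ⟨g j, hg j⟩
  · intro h
    choose g hg using h
    exact ⟨g, hg⟩

theorem self_mem_orb {a : ℕ} (Z : Matrix (Fin a) (Fin a) K) : Z ∈ orb Z := by
  refine ⟨1, ?_⟩
  simp

/-- the closure of a product contains the product of the closures -/
theorem mem_zclP [Finite J] {O : ∀ j, Set (Matrix (Fin (n j)) (Fin (n j)) K)}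
    {Z : ∀ j, Matrix (Fin (n j)) (Fin (n j)) K} (hZ : ∀ j, Z j ∈ zcl (O j)) :
    Z ∈ zclP {Y | ∀ j, Y j ∈ O j} := by
  classical
  have := Fintype.ofFinite J
  intro f hf
  have key : ∀ s : Finset J, ∀ Z : ∀ j, Matrix (Fin (n j)) (Fin (n j)) K,
      (∀ j ∈ s, Z j ∈ zcl (O j)) → (∀ j, j ∉ s → Z j ∈ O j) →
      MvPolynomial.eval (fun x => Z x.1 x.2.1 x.2.2) f = 0 := by
    intro s
    induction s using Finset.induction_on with
    | empty => exact fun Z _ h => hf Z fun j => h j (Finset.notMem_empty j)
    | insert a s ha ih =>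
      intro Z h1 h2
      -- the polynomial in the coordinate `a`
      let v : (Σ j, Fin (n j) × Fin (n j)) → MvPolynomial (Fin (n a) × Fin (n a)) K := fun x =>
        if h : x.1 = a then MvPolynomial.X (h ▸ x.2) else MvPolynomial.C (Z x.1 x.2.1 x.2.2)
      have hv : ∀ y : Matrix (Fin (n a)) (Fin (n a)) K,
          MvPolynomial.eval (fun x => y x.1 x.2) (MvPolynomial.bind₁ v f) =
            MvPolynomial.eval (fun x => Function.update Z a y x.1 x.2.1 x.2.2) f := by
        intro y
        rw [← MvPolynomial.coe_aeval_eq_eval, ← MvPolynomial.coe_aeval_eq_eval]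
        show MvPolynomial.aeval _ (MvPolynomial.bind₁ v f) = MvPolynomial.aeval _ f
        rw [MvPolynomial.aeval_bind₁]
        congr 1
        apply MvPolynomial.algHom_ext
        rintro ⟨j, x⟩
        rw [MvPolynomial.aeval_X, MvPolynomial.aeval_X]
        by_cases h : j = a
        · subst h
          simp [v]
        · simp [v, h]
      have h3 := h1 a (Finset.mem_insert_self a s) (MvPolynomial.bind₁ v f) (fun y hy => by
        rw [hv]
        apply ih
        · intro j hj
          have hja : j ≠ a := fun h => ha (h ▸ hj)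
          rw [Function.update_of_ne hja]
          exact h1 j (Finset.mem_insert_of_mem hj)
        · intro j hj
          by_cases hja : j = a
          · subst hja
            rw [Function.update_self]
            exact hy
          · rw [Function.update_of_ne hja]
            exact h2 j fun h => by
              rcases Finset.mem_insert.1 h with h | h
              · exact hja h
              · exact hj h)
      rw [hv, Function.update_eq_self] at h3
      exact h3
  exact key Finset.univ Z (fun j _ => hZ j) fun j hj => absurd (Finset.mem_univ j) hj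

/-- projection of a closure -/
theorem zclP_proj {O : ∀ j, Set (Matrix (Fin (n j)) (Fin (n j)) K)}
    {Z : ∀ j, Matrix (Fin (n j)) (Fin (n j)) K} (hZ : Z ∈ zclP {Y | ∀ j, Y j ∈ O j}) (j : J) :
    Z j ∈ zcl (O j) := by
  intro f hf
  have h := hZ (MvPolynomial.rename (fun x => (⟨j, x⟩ : Σ j, Fin (n j) × Fin (n j))) f)
    fun Y hY => by
      rw [MvPolynomial.eval_rename]
      exact hf (Y j) (hY j)
  rw [MvPolynomial.eval_rename] at h
  exact h

end products

/-! ## The theorem -/

/-- Groups of inner type A. -/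
theorem inner_A {ι J K : Type} [Finite J] (π : J → ι) (hπ : Function.Surjective π)
    {k D W : ι → Type} [∀ i, Field (k i)] [Field K] [IsAlgClosed K] [∀ j, Algebra (k (π j)) K]
    [∀ i, DivisionRing (D i)] [∀ i, Algebra (k i) (D i)] [∀ i, Group (W i)] {m d r : ι → ℕ}
    (hm : ∀ i, 0 < m i) (hd : ∀ i, 0 < d i)
    (Ψ : ∀ j, K ⊗[k (π j)] Matrix (Fin (m (π j))) (Fin (m (π j))) (D (π j)) ≃ₐ[K]
      Matrix (Fin (m (π j) * d (π j))) (Fin (m (π j) * d (π j))) K)
    (P : ∀ i, Param (W i) (m i * d i)) (hP : ∀ i, (P i).IsCuspidal (m i * r i)) :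
    (∀ i, nilpotencyClass (P i).e ∣ d i) ∧ ∃ Y : ∀ j, Matrix (Fin (m (π j) * d (π j))) (Fin (m (π j) * d (π j))) K,
      (∀ Z : ∀ j, Matrix (Fin (m (π j) * d (π j))) (Fin (m (π j) * d (π j))) K,
        (∀ j, IsDual (P (π j)).e (Z j)) ↔ Z ∈ orbP Y) ∧
      ∀ c : (∀ i, Matrix (Fin (m i)) (Fin (m i)) (D i)) → ℂ,
        (∀ O ∈ geoWFP π Ψ c, O ⊆ zclP (orbP Y)) ∧
        (geoWFP π Ψ c = {orbP Y} ↔ (∀ i, nilpotencyClass (P i).e = d i) ∧
          ∃ X, (∀ i, IsNilpotent (X i) ∧ X i ^ (m i - 1) ≠ 0) ∧ c X ≠ 0) := by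
  refine ⟨fun i => class_dvd (hm i) (hd i) (P i) (hP i), ?_⟩
  choose Y hY hle heq hanti using fun j => factor_facts (hm (π j)) (hd (π j)) (Ψ j) (P (π j))
    (hP (π j))
  have horb : ∀ Z : ∀ j, Matrix (Fin (m (π j) * d (π j))) (Fin (m (π j) * d (π j))) K,
      orbP Z = {V | ∀ j, V j ∈ orb (Z j)} := fun Z => by
    ext V
    exact mem_orbP
  have hsat : ∀ X, satP π Ψ X = {V | ∀ j, V j ∈ sat (Ψ j) (X (π j))} := fun X => horb _
  have hbound : ∀ X : ∀ i, Matrix (Fin (m i)) (Fin (m i)) (D i), (∀ i, IsNilpotent (X i)) →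
      satP π Ψ X ⊆ zclP (orbP Y) := by
    intro X hX V hV
    rw [hsat] at hV
    rw [horb]
    exact mem_zclP fun j => hle j _ (hX (π j)) (hV j)
  refine ⟨Y, ?_, fun c => ⟨?_, ?_⟩⟩
  · intro Z
    rw [mem_orbP]
    exact forall_congr' fun j => hY j (Z j)
  · rintro O ⟨⟨X, hX, _, rfl⟩, _⟩
    exact hbound X hX
  · constructor
    · intro h
      have hmem : orbP Y ∈ geoWFP π Ψ c := by rw [h]; exact Set.mem_singleton _
      obtain ⟨⟨X, hX, hc, hO⟩, _⟩ := hmem
      have h1 : ∀ j, sat (Ψ j) (X (π j)) = orb (Y j) := by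
        intro j
        classical
        rw [hsat, horb] at hO
        ext V
        constructor
        · intro hV
          have h2 : Function.update (fun j => Ψ j (1 ⊗ₜ X (π j))) j V ∈
              {V | ∀ j, V j ∈ orb (Y j)} := by
            rw [hO]
            intro j'
            by_cases hj : j' = j
            · subst hj
              rw [Function.update_self]
              exact hV
            · rw [Function.update_of_ne hj]
              exact self_mem_orb _
          have h3 := h2 j
          rwa [Function.update_self] at h3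
        · intro hV
          have h2 : Function.update Y j V ∈ {V | ∀ j, V j ∈ sat (Ψ j) (X (π j))} := by
            rw [← hO]
            intro j'
            by_cases hj : j' = j
            · subst hj
              rw [Function.update_self]
              exact hV
            · rw [Function.update_of_ne hj]
              exact self_mem_orb _
          have h3 := h2 j
          rwa [Function.update_self] at h3
      have h2 : ∀ j, nilpotencyClass (P (π j)).e = d (π j) ∧ X (π j) ^ (m (π j) - 1) ≠ 0 :=
        fun j => (heq j _ (hX (π j))).1 (h1 j)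
      refine ⟨fun i => ?_, X, fun i => ⟨hX i, ?_⟩, hc⟩
      · obtain ⟨j, rfl⟩ := hπ i
        exact (h2 j).1
      · obtain ⟨j, rfl⟩ := hπ i
        exact (h2 j).2
    · rintro ⟨hcl, X, hX, hc⟩
      have h1 : ∀ j, sat (Ψ j) (X (π j)) = orb (Y j) := fun j =>
        (heq j _ (hX (π j)).1).2 ⟨hcl _, (hX (π j)).2⟩
      have h2 : satP π Ψ X = orbP Y := by
        rw [hsat, horb]
        simp only [h1]
      apply Set.Subset.antisymm
      · rintro O ⟨⟨X', hX', hc', rfl⟩, hmax⟩
        apply Set.mem_singleton_iff.2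
        have h3 : satP π Ψ X ⊆ zclP (satP π Ψ X') :=
          hmax X (fun i => (hX i).1) hc (by rw [h2]; exact hbound X' hX')
        rw [h2] at h3
        have h4 : ∀ j, orb (Y j) ⊆ zcl (sat (Ψ j) (X' (π j))) := by
          intro j V hV
          classical
          have h5 : Function.update Y j V ∈ orbP Y := by
            rw [mem_orbP]
            intro j'
            by_cases hj : j' = j
            · subst hj
              rw [Function.update_self]
              exact hV
            · rw [Function.update_of_ne hj]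
              exact self_mem_orb _
          have h6 := h3 h5
          rw [hsat] at h6
          have h7 := zclP_proj h6 j
          rwa [Function.update_self] at h7
        have h5 : ∀ j, sat (Ψ j) (X' (π j)) = orb (Y j) := fun j =>
          hanti j _ _ (hX (π j)).1 (hX' (π j)) (h1 j) (h4 j)
        rw [hsat, horb]
        simp only [h5]
      · rintro O rfl
        exact ⟨⟨X, fun i => (hX i).1, hc, h2.symm⟩, fun X' hX' _ _ => hbound X' hX'⟩

end Pool.Agent.WF70
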