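import Pool.Agent.WF70.Nil

/-!
# Nilpotent matrices of rectangular Jordan type and their Zariski closure
-/

set_option autoImplicit false

namespace Pool.Agent.WF70

open Module Submodule

section conj

variable {K V : Type*} [Field K] [AddCommGroup V] [Module K V] [FiniteDimensional K V]

/-- Jordan basis of a nilpotent endomorphism all of whose blocks have size `p + 1` -/
theorem exists_shift (p a : ℕ) (T : V →ₗ[K] V) (hn : finrank K V = (p + 1) * a)
    (hT : T ^ (p + 1) = 0) (hr : rk T p = a) :
    ∃ b : Basis (Fin (p + 1) × Fin a) K V,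
      (∀ y, y.1.val = 0 → T (b y) = 0) ∧
      ∀ x y, x.1.val + 1 = y.1.val → x.2 = y.2 → T (b y) = b x := by
  let c : Basis (Fin a) K (LinearMap.range (T ^ p)) := finBasisOfFinrankEq K _ hr
  have hw : ∀ j, ∃ w : V, (T ^ p) w = c j := fun j => (c j).2
  choose w hw using hw
  have hci : LinearIndependent K fun j => (T ^ p) (w j) := by
    have := c.linearIndependent.map' (LinearMap.range (T ^ p)).subtype (Submodule.ker_subtype _)
    have e : (fun j => (T ^ p) (w j)) = (LinearMap.range (T ^ p)).subtype ∘ c := by
      funext j; exact hw j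
    rw [e]; exact this
  have hz : ∀ k v, p < k → (T ^ k) v = 0 := by
    intro k v hk
    obtain ⟨l, rfl⟩ := Nat.exists_eq_add_of_le (show p + 1 ≤ k from hk)
    rw [pow_add, hT, zero_mul]; rfl
  let F : Fin (p + 1) × Fin a → V := fun x => (T ^ (p - x.1.val)) (w x.2)
  have hli : LinearIndependent K F := by
    rw [Fintype.linearIndependent_iff]
    intro g hg
    have key : ∀ k, k ≤ p → ∀ x : Fin (p + 1) × Fin a, x.1.val = p - k → g x = 0 := by
      intro k
      induction k using Nat.strong_induction_on with
      | _ k ih =>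
        intro hk x hx
        have h1 := congrArg (T ^ (p - k)) hg
        rw [map_sum, map_zero, Fintype.sum_prod_type] at h1
        have h2 : ∀ i : Fin (p + 1), i ≠ ⟨p - k, by omega⟩ →
            ∑ j, (T ^ (p - k)) (g (i, j) • F (i, j)) = 0 := by
          intro i hi
          apply Finset.sum_eq_zero
          intro j _
          rcases lt_trichotomy i.val (p - k) with h | h | h
          · rw [map_smul]
            have : (T ^ (p - k)) (F (i, j)) = 0 := by
              show (T ^ (p - k)) ((T ^ (p - i.val)) (w j)) = 0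
              rw [← Module.End.mul_apply, ← pow_add]
              exact hz _ _ (by omega)
            rw [this, smul_zero]
          · exact absurd (Fin.ext h) hi
          · rw [ih (p - i.val) (by omega) (by omega) (i, j) (by show i.val = _; have := i.2; omega),
              zero_smul, map_zero]
        rw [Finset.sum_eq_single_of_mem _ (Finset.mem_univ (⟨p - k, by omega⟩ : Fin (p + 1)))
          (fun i _ hi => h2 i hi)] at h1
        have h3 : ∑ j, g (⟨p - k, by omega⟩, j) • (T ^ p) (w j) = 0 := by
          rw [← h1]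
          refine Finset.sum_congr rfl fun j _ => ?_
          rw [map_smul]
          congr 1
          show _ = (T ^ (p - k)) ((T ^ (p - (p - k))) (w j))
          rw [← Module.End.mul_apply, ← pow_add]
          congr 2
          omega
        have h4 := Fintype.linearIndependent_iff.1 hci _ h3 x.2
        have h5 : x = (⟨p - k, by omega⟩, x.2) := Prod.ext (Fin.ext hx) rfl
        rw [h5]; exact h4
    intro x
    exact key (p - x.1.val) (by omega) x (by have := x.1.2; omega)
  have hcard : Fintype.card (Fin (p + 1) × Fin a) = finrank K V := by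
    rw [hn]; simp
  let b : Basis (Fin (p + 1) × Fin a) K V :=
    Basis.mk hli (hli.span_eq_top_of_card_eq_finrank' hcard).ge
  have hb : ∀ x, b x = (T ^ (p - x.1.val)) (w x.2) := fun x => by rw [Basis.mk_apply]
  refine ⟨b, ?_, ?_⟩
  · intro y hy
    rw [hb, ← Module.End.mul_apply, ← pow_succ']
    exact hz _ _ (by omega)
  · intro x y h h'
    rw [hb, hb, ← Module.End.mul_apply, ← pow_succ', h']
    congr 2
    have := y.1.2
    omega

/-- Two nilpotent endomorphisms of the same rectangular Jordan type are conjugate. -/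
theorem exists_conj (p a : ℕ) (T T' : V →ₗ[K] V) (hn : finrank K V = (p + 1) * a)
    (hT : T ^ (p + 1) = 0) (hr : rk T p = a) (hT' : T' ^ (p + 1) = 0) (hr' : rk T' p = a) :
    ∃ g : V ≃ₗ[K] V, ∀ v, g (T v) = T' (g v) := by
  obtain ⟨b, hb1, hb2⟩ := exists_shift p a T hn hT hr
  obtain ⟨b', hb1', hb2'⟩ := exists_shift p a T' hn hT' hr'
  refine ⟨b.equiv b' (Equiv.refl _), ?_⟩
  have : (b.equiv b' (Equiv.refl _)).toLinearMap ∘ₗ T =
      T' ∘ₗ (b.equiv b' (Equiv.refl _)).toLinearMap := by
    apply b.ext
    rintro ⟨⟨i, hi⟩, j⟩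
    simp only [LinearMap.comp_apply, LinearEquiv.coe_coe]
    rcases i with _ | i
    · rw [hb1 (⟨0, hi⟩, j) rfl, map_zero, Basis.equiv_apply, Equiv.refl_apply,
        hb1' (⟨0, hi⟩, j) rfl]
    · rw [hb2 (⟨i, by omega⟩, j) (⟨i + 1, hi⟩, j) rfl rfl, Basis.equiv_apply, Equiv.refl_apply,
        Basis.equiv_apply, Equiv.refl_apply, hb2' (⟨i, by omega⟩, j) (⟨i + 1, hi⟩, j) rfl rfl]
  exact fun v => LinearMap.congr_fun this v

end conj

section strict

variable {R : Type*} [CommRing R] {p a : ℕ}

/-- strictly upper triangular by blocks -/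
def Strict (M : Matrix (Fin (p + 1) × Fin a) (Fin (p + 1) × Fin a) R) : Prop :=
  ∀ x y, ¬ x.1.val < y.1.val → M x y = 0

theorem Strict.pow {M : Matrix (Fin (p + 1) × Fin a) (Fin (p + 1) × Fin a) R} (h : Strict M)
    (k : ℕ) : ∀ x y, ¬ x.1.val + k ≤ y.1.val → (M ^ k) x y = 0 := by
  induction k with
  | zero =>
    intro x y hxy
    rw [pow_zero, Matrix.one_apply_ne]
    rintro rfl
    exact hxy le_rfl
  | succ k ih =>
    intro x y hxy
    rw [pow_succ, Matrix.mul_apply]
    apply Finset.sum_eq_zero
    intro z _
    by_cases h1 : x.1.val + k ≤ z.1.val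
    · rw [h z y (by omega), mul_zero]
    · rw [ih x z h1, zero_mul]

theorem Strict.pow_eq_zero {M : Matrix (Fin (p + 1) × Fin a) (Fin (p + 1) × Fin a) R}
    (h : Strict M) : M ^ (p + 1) = 0 := by
  ext x y
  rw [h.pow (p + 1) x y (by have := y.1.2; omega)]
  rfl

/-- the corner of `M ^ p` -/
def corner (M : Matrix (Fin (p + 1) × Fin a) (Fin (p + 1) × Fin a) R) : Matrix (Fin a) (Fin a) R :=
  fun j j' => (M ^ p) (0, j) (Fin.last p, j')

/-- the block shift -/
def shiftMat (R : Type*) [CommRing R] (p a : ℕ) :
    Matrix (Fin (p + 1) × Fin a) (Fin (p + 1) × Fin a) R :=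
  fun x y => if x.1.val + 1 = y.1.val ∧ x.2 = y.2 then 1 else 0

theorem shift_strict : Strict (shiftMat R p a) := by
  intro x y h
  rw [shiftMat, if_neg]
  rintro ⟨h1, _⟩
  omega

theorem shift_pow (k : ℕ) (x y : Fin (p + 1) × Fin a) :
    (shiftMat R p a ^ k) x y = if x.1.val + k = y.1.val ∧ x.2 = y.2 then 1 else 0 := by
  induction k generalizing x y with
  | zero =>
    rw [pow_zero]
    by_cases h : x = y
    · subst h; simp
    · rw [Matrix.one_apply_ne h, if_neg]
      rintro ⟨h1, h2⟩
      exact h (Prod.ext (Fin.ext h1) h2)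
  | succ k ih =>
    rw [pow_succ, Matrix.mul_apply]
    by_cases hy : y.1.val = 0
    · rw [if_neg (by omega)]
      apply Finset.sum_eq_zero
      intro z _
      rw [shiftMat, if_neg (by omega), mul_zero]
    · rw [Finset.sum_eq_single (⟨y.1.val - 1, by have := y.1.2; omega⟩, y.2)]
      · have hs : shiftMat R p a (⟨y.1.val - 1, by have := y.1.2; omega⟩, y.2) y = 1 := by
          rw [shiftMat, if_pos]
          exact ⟨by show y.1.val - 1 + 1 = _; omega, rfl⟩
        rw [ih, hs, mul_one]
        congr 1
        apply propext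
        constructor
        · rintro ⟨h1, h2⟩
          exact ⟨by change _ = y.1.val - 1 at h1; omega, h2⟩
        · rintro ⟨h1, h2⟩
          exact ⟨by show _ = y.1.val - 1; omega, h2⟩
      · intro z _ hz
        rw [shiftMat, if_neg, mul_zero]
        rintro ⟨h1, h2⟩
        exact hz (Prod.ext (Fin.ext (by show _ = y.1.val - 1; omega)) h2)
      · intro h; exact absurd (Finset.mem_univ _) h

theorem shift_corner : corner (shiftMat R p a) = 1 := by
  ext j j'
  rw [corner, shift_pow]
  by_cases h : j = j'
  · subst h; simp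
  · rw [Matrix.one_apply_ne h, if_neg]
    rintro ⟨_, h2⟩
    exact h h2

end strict

section closure

variable {K : Type} [Field K]

/-- a strictly upper triangular matrix with invertible corner has rectangular Jordan type -/
theorem rk_of_corner {V : Type*} [AddCommGroup V] [Module K V] [FiniteDimensional K V] {p a : ℕ}
    (b : Basis (Fin (p + 1) × Fin a) K V)
    (M : Matrix (Fin (p + 1) × Fin a) (Fin (p + 1) × Fin a) K) (h : Strict M)
    (hc : (corner M).det ≠ 0) : rk (Matrix.toLinAlgEquiv b M) p = a := by
  have hn : finrank K V = (p + 1) * a := by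
    rw [finrank_eq_card_basis b]; simp
  have h0 : (Matrix.toLinAlgEquiv b M) ^ (p + 1) = 0 := by
    rw [← map_pow, h.pow_eq_zero, map_zero]
  apply le_antisymm
  · have := mul_rk_le _ p h0
    rw [hn] at this
    exact Nat.le_of_mul_le_mul_left this (Nat.succ_pos p)
  · -- the images of the last block are independent
    have e : ∀ j', (Matrix.toLinAlgEquiv b M ^ p) (b (Fin.last p, j')) =
        ∑ j, corner M j j' • b (0, j) := by
      intro j'
      rw [← map_pow, Matrix.toLinAlgEquiv_self, Fintype.sum_prod_type,
        Finset.sum_eq_single (0 : Fin (p + 1))]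
      · rfl
      · intro i _ hi
        apply Finset.sum_eq_zero
        intro j _
        rw [h.pow p _ _, zero_smul]
        intro hh
        apply hi
        apply Fin.ext
        have h1 : i.val + p ≤ p := hh
        show i.val = 0
        omega
      · intro h; exact absurd (Finset.mem_univ _) h
    have hli : LinearIndependent K fun j' : Fin a =>
        (⟨(Matrix.toLinAlgEquiv b M ^ p) (b (Fin.last p, j')), ⟨_, rfl⟩⟩ :
          LinearMap.range (Matrix.toLinAlgEquiv b M ^ p)) := by
      rw [Fintype.linearIndependent_iff]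
      intro g hg
      have h1 : ∑ j', g j' • (Matrix.toLinAlgEquiv b M ^ p) (b (Fin.last p, j')) = 0 := by
        have := congrArg (LinearMap.range (Matrix.toLinAlgEquiv b M ^ p)).subtype hg
        simpa using this
      simp only [e, Finset.smul_sum, smul_smul] at h1
      rw [Finset.sum_comm] at h1
      simp only [← Finset.sum_smul] at h1
      have h2 : ∀ j, ∑ j', g j' * corner M j j' = 0 := by
        have hb := b.linearIndependent.comp (fun j : Fin a => ((0 : Fin (p + 1)), j))
          (fun x y hxy => (Prod.mk.inj hxy).2)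
        exact Fintype.linearIndependent_iff.1 hb _ h1
      have h3 : (corner M).mulVec g = 0 := by
        funext j
        rw [Matrix.mulVec, dotProduct]
        rw [Pi.zero_apply, ← h2 j]
        exact Finset.sum_congr rfl fun j' _ => mul_comm _ _
      exact congrFun (Matrix.eq_zero_of_mulVec_eq_zero hc h3)
    have := hli.fintype_card_le_finrank
    rwa [Fintype.card_fin] at this

/-- A matrix with `Z ^ (p + 1) = 0` of size `(p + 1) a` is in the Zariski closure of the set of
the matrices with all Jordan blocks of size `p + 1`. -/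
theorem closure_rect [Infinite K] {n : ℕ} (p a : ℕ) (hn : n = (p + 1) * a)
    (Z : Matrix (Fin n) (Fin n) K) (hZ : Z ^ (p + 1) = 0) (f : MvPolynomial (Fin n × Fin n) K)
    (hf : ∀ Y : Matrix (Fin n) (Fin n) K, Y ^ (p + 1) = 0 → rk (Matrix.toLinAlgEquiv' Y) p = a →
      MvPolynomial.eval (fun x => Y x.1 x.2) f = 0) :
    MvPolynomial.eval (fun x => Z x.1 x.2) f = 0 := by
  have hT : (Matrix.toLinAlgEquiv' Z) ^ (p + 1) = 0 := by rw [← map_pow, hZ, map_zero]
  obtain ⟨b, hb⟩ := exists_basis a (p + 1) (Fin n → K) (Matrix.toLinAlgEquiv' Z)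
    (by rw [finrank_fin_fun, hn]) hT
  let E : Matrix (Fin (p + 1) × Fin a) (Fin (p + 1) × Fin a) K ≃ₐ[K] Matrix (Fin n) (Fin n) K :=
    (Matrix.toLinAlgEquiv b).trans Matrix.toLinAlgEquiv'.symm
  have hE : ∀ M, Matrix.toLinAlgEquiv' (E M) = Matrix.toLinAlgEquiv b M := fun M => by simp [E]
  let A := E.symm Z
  have hA : Strict A := by
    intro x y hxy
    have h1 : A = (Matrix.toLinAlgEquiv b).symm (Matrix.toLinAlgEquiv' Z) := rfl
    have h2 : A x y = b.repr (Matrix.toLinAlgEquiv' Z (b y)) x := by
      rw [h1, Matrix.toLinAlgEquiv_symm, LinearMap.toMatrixAlgEquiv_apply]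
    rw [h2]
    have h3 := (Basis.mem_span_image b).1 (hb y)
    by_contra h4
    exact hxy (h3 (Finsupp.mem_support_iff.2 h4))
  let S : Matrix (Fin (p + 1) × Fin a) (Fin (p + 1) × Fin a) K := shiftMat K p a
  let M : K → Matrix (Fin (p + 1) × Fin a) (Fin (p + 1) × Fin a) K := fun t =>
    (1 - t) • A + t • S
  have hM : ∀ t, Strict (M t) := by
    intro t x y hxy
    show (1 - t) * A x y + t * shiftMat K p a x y = 0
    rw [hA x y hxy, shift_strict x y hxy]
    ring
  let MX : Matrix (Fin (p + 1) × Fin a) (Fin (p + 1) × Fin a) (Polynomial K) := fun x y =>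
    (1 - Polynomial.X) * Polynomial.C (A x y) + Polynomial.X * Polynomial.C (S x y)
  let D : Polynomial K := (corner MX).det
  have hMX : ∀ t, (Polynomial.evalRingHom t).mapMatrix MX = M t := by
    intro t
    ext x y
    simp [MX, M]
    exact mul_comm _ _
  have hD : ∀ t, D.eval t = (corner (M t)).det := by
    intro t
    have h1 : (Polynomial.evalRingHom t) D = ((Polynomial.evalRingHom t).mapMatrix (corner MX)).det :=
      RingHom.map_det _ _
    have h2 : (Polynomial.evalRingHom t).mapMatrix (corner MX) = corner (M t) := by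
      ext j j'
      rw [← hMX t, corner, ← map_pow]
      rfl
    rw [h2] at h1
    exact h1
  have hD0 : D ≠ 0 := by
    intro h0
    have := hD 1
    rw [h0, Polynomial.eval_zero] at this
    have e : M 1 = S := by simp [M]
    rw [e, shift_corner, Matrix.det_one] at this
    exact zero_ne_one this
  let q : Polynomial K := MvPolynomial.eval₂ Polynomial.C (fun x : Fin n × Fin n =>
    (1 - Polynomial.X) * Polynomial.C (Z x.1 x.2) + Polynomial.X * Polynomial.C (E S x.1 x.2)) f
  have hq : ∀ t, q.eval t = MvPolynomial.eval (fun x => (E (M t)) x.1 x.2) f := by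
    intro t
    have h1 : (Polynomial.evalRingHom t) q = MvPolynomial.eval₂ ((Polynomial.evalRingHom t).comp
        Polynomial.C) (fun x : Fin n × Fin n => (Polynomial.evalRingHom t) ((1 - Polynomial.X) *
          Polynomial.C (Z x.1 x.2) + Polynomial.X * Polynomial.C (E S x.1 x.2))) f :=
      MvPolynomial.hom_eval₂ _ _ _ _
    have h2 : (Polynomial.evalRingHom t).comp Polynomial.C = RingHom.id K := by
      ext x; simp
    have h3 : (fun x : Fin n × Fin n => (Polynomial.evalRingHom t) ((1 - Polynomial.X) *
          Polynomial.C (Z x.1 x.2) + Polynomial.X * Polynomial.C (E S x.1 x.2))) =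
        fun x => (E (M t)) x.1 x.2 := by
      funext x
      have h4 : E (M t) = (1 - t) • Z + t • E S := by
        rw [map_add, map_smul, map_smul]
        congr 2
        exact E.apply_symm_apply Z
      rw [h4]
      simp
      exact mul_comm _ _
    rw [h2, h3] at h1
    exact h1
  have hqD : q * D = 0 := by
    apply Polynomial.funext
    intro t
    rw [Polynomial.eval_mul, Polynomial.eval_zero]
    by_cases h : D.eval t = 0
    · rw [h, mul_zero]
    · rw [hq t, hf (E (M t)), zero_mul]
      · rw [← map_pow, (hM t).pow_eq_zero, map_zero]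
      · rw [hE]
        rw [hD t] at h
        exact rk_of_corner b (M t) (hM t) h
  have hq0 : q = 0 := (mul_eq_zero.1 hqD).resolve_right hD0
  have h1 := hq 0
  rw [hq0, Polynomial.eval_zero] at h1
  have e : E (M 0) = Z := by
    have : M 0 = A := by simp [M]
    rw [this]
    exact E.apply_symm_apply Z
  rw [e] at h1
  exact h1.symm

end closure

end Pool.Agent.WF70
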