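import Pool.Agent.WF70.Nil

/-!
# Discrete parameters: the nilpotent element has rectangular Jordan type
-/

set_option autoImplicit false

namespace Pool.Agent.WF70

open Module Submodule

attribute [local instance 100] LieRing.ofAssociativeRing

section sl2

variable {V : Type*} [AddCommGroup V] [Module ℂ V]

/-- the standard relations of `sl₂` (the zero triple is allowed) -/
structure Triple (h e f : V →ₗ[ℂ] V) : Prop where
  he : h * e - e * h = (2 : ℂ) • e
  hf : h * f - f * h = -((2 : ℂ) • f)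
  ef : e * f - f * e = h

variable {h e f : V →ₗ[ℂ] V}

theorem Triple.h_pow (t : Triple h e f) (k : ℕ) : h * e ^ k - e ^ k * h = (2 * k : ℂ) • e ^ k := by
  induction k with
  | zero => simp
  | succ k ih =>
    have h1 : h * e ^ (k + 1) - e ^ (k + 1) * h =
        (h * e ^ k - e ^ k * h) * e + e ^ k * (h * e - e * h) := by
      rw [pow_succ]; noncomm_ring
    rw [h1, ih, t.he, smul_mul_assoc, ← pow_succ, mul_smul_comm, ← pow_succ, ← add_smul]
    congr 1
    push_cast
    ring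

theorem Triple.pow_f (t : Triple h e f) (k : ℕ) :
    e ^ (k + 1) * f - f * e ^ (k + 1) = (k + 1 : ℂ) • (h * e ^ k - (k : ℂ) • e ^ k) := by
  induction k with
  | zero => simp [t.ef]
  | succ k ih =>
    have h1 : e ^ (k + 1 + 1) * f - f * e ^ (k + 1 + 1) =
        e * (e ^ (k + 1) * f - f * e ^ (k + 1)) + (e * f - f * e) * e ^ (k + 1) := by
      rw [pow_succ' e (k + 1)]; noncomm_ring
    have h2 : e * h = h * e - (2 : ℂ) • e := by rw [← t.he]; abel
    rw [h1, ih, t.ef, mul_smul_comm, mul_sub, ← mul_assoc, h2, sub_mul, mul_smul_comm,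
      ← pow_succ', mul_assoc, ← pow_succ', smul_mul_assoc, ← pow_succ']
    push_cast
    module

theorem Triple.isSl2 (t : Triple h e f) (h0 : h ≠ 0) :
    IsSl2Triple (L := Module.End ℂ V) h e f where
  h_ne_zero := h0
  lie_e_f := by rw [Ring.lie_def]; exact t.ef
  lie_h_e_nsmul := by
    rw [Ring.lie_def]
    have := t.he
    rw [two_smul] at this
    rw [two_nsmul]
    exact this
  lie_h_f_nsmul := by
    rw [Ring.lie_def]
    have := t.hf
    rw [two_smul] at this
    rw [two_nsmul]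
    exact this

variable [FiniteDimensional ℂ V]

theorem Triple.nilpotent (t : Triple h e f) : ∃ k, e ^ k = 0 := by
  by_contra hcon
  have hne : ∀ k, e ^ k ≠ 0 := fun k hk => hcon ⟨k, hk⟩
  let A : Module.End ℂ (V →ₗ[ℂ] V) := LinearMap.mulLeft ℂ h - LinearMap.mulRight ℂ h
  have hA : ∀ k : ℕ, A.HasEigenvalue (2 * k : ℂ) := by
    intro k
    apply Module.End.hasEigenvalue_of_hasEigenvector (x := e ^ k)
    rw [Module.End.hasEigenvector_iff]
    refine ⟨?_, hne k⟩
    rw [Module.End.mem_eigenspace_iff]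
    exact t.h_pow k
  have hfin : (Set.range fun k : ℕ => (2 * k : ℂ)).Finite :=
    (Module.End.finite_hasEigenvalue A).subset (by rintro _ ⟨k, rfl⟩; exact hA k)
  refine Set.infinite_range_of_injective (f := fun k : ℕ => (2 * k : ℂ)) ?_ hfin
  intro x y hxy
  have : (x : ℂ) = y := by
    have h2 : (2 : ℂ) ≠ 0 := two_ne_zero
    exact mul_left_cancel₀ h2 hxy
  exact_mod_cast this

/-- In a jointly irreducible representation of a group and a commuting `sl₂`-triple, all Jordan
blocks of `e` have the same size. -/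
theorem exists_rect {W : Type*} (φ : W → (V →ₗ[ℂ] V)) (t : Triple h e f)
    (ce : ∀ w, φ w * e = e * φ w) (_ch : ∀ w, φ w * h = h * φ w) (cf : ∀ w, φ w * f = f * φ w)
    (irr : ∀ U : Submodule ℂ V, (∀ w, ∀ u ∈ U, φ w u ∈ U) → (∀ u ∈ U, e u ∈ U) →
      (∀ u ∈ U, h u ∈ U) → (∀ u ∈ U, f u ∈ U) → U = ⊥ ∨ U = ⊤) :
    ∃ a p : ℕ, finrank ℂ V = (a + 1) * p ∧ e ^ (a + 1) = 0 ∧ rk e a = p ∧
      (0 < finrank ℂ V → e ^ a ≠ 0) := by
  by_cases hV : finrank ℂ V = 0
  · refine ⟨0, 0, by rw [hV], ?_, ?_, fun h => absurd hV h.ne'⟩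
    · have : Subsingleton V := finrank_zero_iff.1 hV
      exact Subsingleton.elim _ _
    · rw [rk_zero, hV]
  by_cases h0 : h = 0
  · have he0 : e = 0 := by
      have := t.he
      rw [h0, zero_mul, mul_zero, sub_zero, eq_comm, smul_eq_zero] at this
      exact this.resolve_left two_ne_zero
    refine ⟨0, finrank ℂ V, by ring, by rw [he0, zero_add, pow_one], rk_zero e, fun h => ?_⟩
    rw [pow_zero]
    have : Nontrivial V := finrank_pos_iff.1 h
    exact one_ne_zero
  obtain ⟨k0, hk0⟩ := t.nilpotent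
  have hpos : 0 < finrank ℂ V := Nat.pos_of_ne_zero hV
  have hnt : Nontrivial V := finrank_pos_iff.1 hpos
  obtain ⟨a, ha1, ha2⟩ : ∃ a, e ^ a ≠ 0 ∧ e ^ (a + 1) = 0 := by
    have := Nat.exists_not_and_succ_of_not_zero_of_exists (p := fun k => e ^ k = 0)
      (by rw [pow_zero]; exact one_ne_zero) ⟨k0, hk0⟩
    obtain ⟨a, h1, h2⟩ := this
    exact ⟨a, h1, h2⟩
  have T := t.isSl2 h0
  have hw : ∀ v, h ((e ^ a) v) = (a : ℂ) • (e ^ a) v := by
    have h1 := t.pow_f a
    rw [ha2, zero_mul, mul_zero, sub_zero, eq_comm, smul_eq_zero] at h1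
    have h2 := h1.resolve_left (by exact_mod_cast Nat.succ_ne_zero a)
    intro v
    have h3 := LinearMap.congr_fun h2 v
    rw [LinearMap.sub_apply, LinearMap.zero_apply, sub_eq_zero] at h3
    exact h3
  have hz : ∀ v, e ((e ^ a) v) = 0 := by
    intro v
    have := LinearMap.congr_fun ha2 v
    rw [pow_succ'] at this
    exact this
  have hpv : ∀ v, (e ^ a) v ≠ 0 → T.HasPrimitiveVectorWith ((e ^ a) v) (a : ℂ) := by
    intro v hv
    exact ⟨hv, hw v, hz v⟩
  have htoEnd : (LieModule.toEnd ℂ (Module.End ℂ V) V) f = f := by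
    ext v; rfl
  have hf0 : ∀ v, (f ^ (a + 1)) ((e ^ a) v) = 0 := by
    intro v
    by_cases hv : (e ^ a) v = 0
    · rw [hv, map_zero]
    · have := (hpv v hv).pow_toEnd_f_eq_zero_of_eq_nat (n := a) rfl
      rwa [htoEnd] at this
  have hhf : ∀ (i : ℕ) (v : V), h ((f ^ i) ((e ^ a) v)) = ((a : ℂ) - 2 * i) • (f ^ i) ((e ^ a) v) := by
    intro i v
    by_cases hv : (e ^ a) v = 0
    · rw [hv, map_zero, map_zero, smul_zero]
    · have := (hpv v hv).lie_h_pow_toEnd_f i
      rwa [htoEnd] at this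
  have hef : ∀ (i : ℕ) (v : V), e ((f ^ (i + 1)) ((e ^ a) v)) =
      (((i : ℂ) + 1) * ((a : ℂ) - i)) • (f ^ i) ((e ^ a) v) := by
    intro i v
    by_cases hv : (e ^ a) v = 0
    · rw [hv, map_zero, map_zero, map_zero, smul_zero]
    · have := (hpv v hv).lie_e_pow_succ_toEnd_f i
      rwa [htoEnd] at this
  let s : Set V := {x | ∃ i ≤ a, ∃ v, (f ^ i) ((e ^ a) v) = x}
  let M : Submodule ℂ V := Submodule.span ℂ s
  have hs : ∀ i ≤ a, ∀ v, (f ^ i) ((e ^ a) v) ∈ M := fun i hi v =>
    Submodule.subset_span ⟨i, hi, v, rfl⟩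
  have stab : ∀ g : V →ₗ[ℂ] V, (∀ i ≤ a, ∀ v, g ((f ^ i) ((e ^ a) v)) ∈ M) →
      ∀ u ∈ M, g u ∈ M := by
    intro g hg u hu
    have : M ≤ M.comap g := by
      rw [Submodule.span_le]
      rintro _ ⟨i, hi, v, rfl⟩
      exact hg i hi v
    exact this hu
  have cpow : ∀ (g x : V →ₗ[ℂ] V), g * x = x * g → ∀ k v, g ((x ^ k) v) = (x ^ k) (g v) := by
    intro g x hgx k v
    have : Commute g (x ^ k) := Commute.pow_right hgx k
    exact LinearMap.congr_fun this v
  have st1 : ∀ w, ∀ u ∈ M, φ w u ∈ M := by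
    intro w
    apply stab
    intro i hi v
    rw [cpow _ _ (cf w), cpow _ _ (ce w)]
    exact hs i hi _
  have st2 : ∀ u ∈ M, e u ∈ M := by
    apply stab
    intro i hi v
    rcases i with _ | i
    · have : e ((f ^ 0) ((e ^ a) v)) = 0 := hz v
      rw [this]; exact zero_mem _
    · rw [hef]
      exact Submodule.smul_mem _ _ (hs i (by omega) v)
  have st3 : ∀ u ∈ M, h u ∈ M := by
    apply stab
    intro i hi v
    rw [hhf]
    exact Submodule.smul_mem _ _ (hs i hi v)
  have st4 : ∀ u ∈ M, f u ∈ M := by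
    apply stab
    intro i hi v
    rw [← Module.End.mul_apply, ← pow_succ']
    rcases Nat.lt_or_ge i a with h1 | h1
    · exact hs (i + 1) h1 v
    · have : i = a := le_antisymm hi h1
      rw [this, hf0]
      exact zero_mem _
  have hM : M = ⊤ := by
    rcases irr M st1 st2 st3 st4 with hM | hM
    · exfalso
      apply ha1
      ext v
      have := hs 0 (Nat.zero_le a) v
      rw [hM, Submodule.mem_bot] at this
      exact this
    · exact hM
  let Ψ : (Fin (a + 1) → LinearMap.range (e ^ a)) →ₗ[ℂ] V :=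
    ∑ i : Fin (a + 1), (f ^ i.val) ∘ₗ (LinearMap.range (e ^ a)).subtype ∘ₗ LinearMap.proj i
  have hΨ : LinearMap.range Ψ = ⊤ := by
    rw [eq_top_iff, ← hM, Submodule.span_le]
    rintro _ ⟨i, hi, v, rfl⟩
    refine ⟨Pi.single (⟨i, by omega⟩ : Fin (a + 1)) ⟨(e ^ a) v, ⟨v, rfl⟩⟩, ?_⟩
    rw [LinearMap.sum_apply, Finset.sum_eq_single (⟨i, by omega⟩ : Fin (a + 1))]
    · simp
    · intro j _ hj
      simp [Pi.single_eq_of_ne hj]
    · intro h; exact absurd (Finset.mem_univ _) h
  have h1 : finrank ℂ V ≤ (a + 1) * rk e a := by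
    show finrank ℂ V ≤ (a + 1) * finrank ℂ (LinearMap.range (e ^ a))
    have h2 := LinearMap.finrank_range_le Ψ
    rw [hΨ, finrank_top, Module.finrank_pi_fintype] at h2
    simpa using h2
  exact ⟨a, rk e a, le_antisymm h1 (mul_rk_le e a ha2), ha2, rfl, fun _ => ha1⟩

end sl2

end Pool.Agent.WF70
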