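import Pool.Agent.WF70.Defs
import Pool.Agent.WF70.Rect
import Pool.Agent.WF70.Sl2

/-!
# MP_eb9533_al: pure inner forms of `PGL n`. Proofs
-/

set_option autoImplicit false

namespace Pool.Agent.WF70

open Module TensorProduct

section matrices

variable {F : Type} [Field F] {n : ℕ}

theorem toLin_pow (N : Matrix (Fin n) (Fin n) F) (i : ℕ) :
    (Matrix.toLinAlgEquiv' N) ^ i = (N ^ i).mulVecLin := by
  rw [← map_pow]
  rfl

theorem rank_add_le (A B : Matrix (Fin n) (Fin n) F) : (A + B).rank ≤ A.rank + B.rank := by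
  have h : LinearMap.range (A + B).mulVecLin ≤
      LinearMap.range A.mulVecLin ⊔ LinearMap.range B.mulVecLin := by
    rintro _ ⟨v, rfl⟩
    rw [Matrix.mulVecLin_add]
    exact Submodule.add_mem_sup ⟨v, rfl⟩ ⟨v, rfl⟩
  exact (Submodule.finrank_mono h).trans (Submodule.finrank_add_le_finrank_add_finrank _ _)

theorem rk_matrix (N : Matrix (Fin n) (Fin n) F) (i : ℕ) :
    rk (Matrix.toLinAlgEquiv' N) i = (N ^ i).rank := by
  rw [rk, toLin_pow]
  rfl

theorem toLin_pow_eq_zero {N : Matrix (Fin n) (Fin n) F} {i : ℕ} :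
    (Matrix.toLinAlgEquiv' N) ^ i = 0 ↔ N ^ i = 0 := by
  rw [← map_pow, EmbeddingLike.map_eq_zero_iff]

theorem blocks_eq (N : Matrix (Fin n) (Fin n) F) (i : ℕ) :
    blocks N i = gap (Matrix.toLinAlgEquiv' N) i := by
  rw [blocks, ← rk_matrix, ← rk_matrix, rk_eq _ i]
  omega

/-- rectangular Jordan type: all blocks have size `a + 1` -/
theorem blocks_of_rect {N : Matrix (Fin n) (Fin n) F} {a p : ℕ} (hn : n = (a + 1) * p)
    (h : N ^ (a + 1) = 0) (hr : (N ^ a).rank = p) (i : ℕ) :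
    blocks N i = if i ≤ a then p else 0 := by
  split_ifs with hi
  · rw [blocks_eq]
    refine gap_of_rect _ a p ?_ (toLin_pow_eq_zero.2 h) ?_ i hi
    · rw [finrank_fin_fun, hn]
    · rw [rk_matrix, hr]
  · have : N ^ i = 0 := by
      obtain ⟨j, rfl⟩ := Nat.exists_eq_add_of_le (show a + 1 ≤ i by omega)
      rw [pow_add, h, zero_mul]
    rw [blocks, this, Matrix.rank_zero, Nat.zero_sub]

/-- the matrices dual to a matrix of type `((a + 1) ^ (p + 1))` are those of type
`((p + 1) ^ (a + 1))` -/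
theorem dual_iff {K : Type} [Field K] {N : Matrix (Fin n) (Fin n) F} {a p : ℕ}
    (hn : n = (a + 1) * (p + 1)) (h : N ^ (a + 1) = 0) (hr : (N ^ a).rank = p + 1)
    (Y : Matrix (Fin n) (Fin n) K) :
    IsDual N Y ↔ Y ^ (p + 1) = 0 ∧ (Y ^ p).rank = a + 1 := by
  have hcard : ∀ j, ((Finset.range n).filter fun i => j < blocks N i).card =
      if j ≤ p then a + 1 else 0 := by
    intro j
    have e : ((Finset.range n).filter fun i => j < blocks N i) =
        if j ≤ p then Finset.range (a + 1) else ∅ := by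
      ext i
      rw [Finset.mem_filter, Finset.mem_range, blocks_of_rect hn h hr i]
      have h1 : a + 1 ≤ n := by
        rw [hn]
        exact Nat.le_mul_of_pos_right _ (Nat.succ_pos p)
      split_ifs with h2 h3 h3
      · rw [Finset.mem_range]; omega
      · simp only [Finset.notMem_empty, iff_false]; omega
      · rw [Finset.mem_range]; omega
      · simp
    rw [e]
    split_ifs <;> simp
  have hn' : n = (p + 1) * (a + 1) := by rw [hn]; ring
  constructor
  · rintro ⟨_, hY, hb⟩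
    have h1 : ∀ j, gap (Matrix.toLinAlgEquiv' Y) j = if j ≤ p then a + 1 else 0 := fun j => by
      rw [← blocks_eq, hb, hcard]
    have h2 := sum_gap (Matrix.toLinAlgEquiv' Y) (p + 1)
    have h3 : ∑ i ∈ Finset.range (p + 1), gap (Matrix.toLinAlgEquiv' Y) i = n := by
      have h3' : ∑ i ∈ Finset.range (p + 1), gap (Matrix.toLinAlgEquiv' Y) i =
          (p + 1) * (a + 1) := by
        rw [Finset.sum_congr rfl (g := fun _ => a + 1)]
        · simp
        · intro i hi
          rw [h1, if_pos (by have := Finset.mem_range.1 hi; omega)]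
      exact h3'.trans hn'.symm
    rw [h3, finrank_fin_fun] at h2
    have h4 : rk (Matrix.toLinAlgEquiv' Y) (p + 1) = 0 := by omega
    have h5 := rk_eq (Matrix.toLinAlgEquiv' Y) p
    rw [h4, h1, if_pos le_rfl, zero_add, rk_matrix] at h5
    exact ⟨toLin_pow_eq_zero.1 (rk_eq_zero.1 h4), h5⟩
  · rintro ⟨h1, h2⟩
    refine ⟨⟨a + 1, h⟩, ⟨p + 1, h1⟩, fun j => ?_⟩
    rw [hcard, blocks_of_rect hn' h1 h2]

theorem conj_of_rect {K : Type} [Field K] {p a : ℕ} (hn : n = (p + 1) * a)
    {Y Y' : Matrix (Fin n) (Fin n) K} (h1 : Y ^ (p + 1) = 0) (h2 : (Y ^ p).rank = a)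
    (h1' : Y' ^ (p + 1) = 0) (h2' : (Y' ^ p).rank = a) : Y' ∈ orb Y := by
  obtain ⟨g, hg⟩ := exists_conj p a (Matrix.toLinAlgEquiv' Y) (Matrix.toLinAlgEquiv' Y')
    (by rw [finrank_fin_fun, hn]) (toLin_pow_eq_zero.2 h1) (by rw [rk_matrix, h2])
    (toLin_pow_eq_zero.2 h1') (by rw [rk_matrix, h2'])
  let A : Matrix (Fin n) (Fin n) K := Matrix.toLinAlgEquiv'.symm g.toLinearMap
  let B : Matrix (Fin n) (Fin n) K := Matrix.toLinAlgEquiv'.symm g.symm.toLinearMap
  have hA : Matrix.toLinAlgEquiv' A = g.toLinearMap := AlgEquiv.apply_symm_apply _ _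
  have hB : Matrix.toLinAlgEquiv' B = g.symm.toLinearMap := AlgEquiv.apply_symm_apply _ _
  have hAB : A * B = 1 := by
    apply Matrix.toLinAlgEquiv'.injective
    rw [map_mul, hA, hB, map_one]
    exact LinearMap.ext fun v => g.apply_symm_apply v
  have hBA : B * A = 1 := by
    apply Matrix.toLinAlgEquiv'.injective
    rw [map_mul, hA, hB, map_one]
    exact LinearMap.ext fun v => g.symm_apply_apply v
  refine ⟨⟨A, B, hAB, hBA⟩, ?_⟩
  show Y' = A * Y * B
  apply Matrix.toLinAlgEquiv'.injective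
  rw [map_mul, map_mul, hA, hB]
  refine LinearMap.ext fun v => ?_
  show Matrix.toLinAlgEquiv' Y' v = g (Matrix.toLinAlgEquiv' Y (g.symm v))
  rw [hg, g.apply_symm_apply]

theorem orb_pow {K : Type} [Field K] {Y Z : Matrix (Fin n) (Fin n) K} (h : Z ∈ orb Y) (i : ℕ) :
    ∃ g : (Matrix (Fin n) (Fin n) K)ˣ, Z ^ i = g.val * Y ^ i * g.inv := by
  obtain ⟨g, rfl⟩ := h
  refine ⟨g, ?_⟩
  induction i with
  | zero => rw [pow_zero, pow_zero, mul_one]; exact g.val_inv.symm
  | succ i ih =>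
    rw [pow_succ, ih, pow_succ]
    have : g.val * Y ^ i * g.inv * (g.val * Y * g.inv) =
        g.val * Y ^ i * (g.inv * g.val) * Y * g.inv := by noncomm_ring
    rw [this, g.inv_val, mul_one, mul_assoc (g.val)]

theorem mem_orb_self {K : Type} [Field K] (Y : Matrix (Fin n) (Fin n) K) : Y ∈ orb Y :=
  ⟨1, by simp⟩

theorem orb_trans {K : Type} [Field K] {X Y Z : Matrix (Fin n) (Fin n) K} (h : Z ∈ orb Y)
    (h' : Y ∈ orb X) : Z ∈ orb X := by
  obtain ⟨g, rfl⟩ := h
  obtain ⟨g', rfl⟩ := h'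
  refine ⟨g * g', ?_⟩
  show g.val * (g'.val * X * g'.inv) * g.inv = g.val * g'.val * X * (g * g').inv
  have : (g * g').inv = g'.inv * g.inv := by
    show ((g * g')⁻¹).val = _
    rw [mul_inv_rev]
    rfl
  rw [this]
  noncomm_ring

/-- a block shift of the given size -/
theorem exists_rect_matrix (K : Type) [Field K] (p a : ℕ) (hn : n = (p + 1) * a) :
    ∃ Y : Matrix (Fin n) (Fin n) K, Y ^ (p + 1) = 0 ∧ (Y ^ p).rank = a := by
  have e : Fin n ≃ Fin (p + 1) × Fin a := Fintype.equivOfCardEq (by simp [hn])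
  let b : Basis (Fin (p + 1) × Fin a) K (Fin n → K) := (Pi.basisFun K (Fin n)).reindex e
  let Y : Matrix (Fin n) (Fin n) K :=
    Matrix.toLinAlgEquiv'.symm (Matrix.toLinAlgEquiv b (shiftMat K p a))
  have hY : Matrix.toLinAlgEquiv' Y = Matrix.toLinAlgEquiv b (shiftMat K p a) :=
    AlgEquiv.apply_symm_apply _ _
  refine ⟨Y, ?_, ?_⟩
  · rw [← toLin_pow_eq_zero, hY, ← map_pow, shift_strict.pow_eq_zero, map_zero]
  · rw [← rk_matrix, hY]
    apply rk_of_corner b _ shift_strict
    rw [shift_corner, Matrix.det_one]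
    exact one_ne_zero

end matrices

/-- arithmetic of a cuspidal enhancement -/
theorem cuspidal_arith {a m d r : ℕ} (ha : 0 < a) (h : a ∣ m * d)
    (hc : ∀ z : ℂ, z ^ a = 1 → z ^ (m * r) = 1 → z = 1) : a ∣ d := by
  have h1 : Nat.gcd a (m * r) = 1 := by
    by_contra hg
    have hpos : 0 < Nat.gcd a (m * r) := Nat.gcd_pos_of_pos_left _ ha
    have hprim := Complex.isPrimitiveRoot_exp (Nat.gcd a (m * r)) hpos.ne'
    set ζ := Complex.exp (2 * Real.pi * Complex.I / (Nat.gcd a (m * r) : ℕ)) with hζ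
    have h2 : ζ ^ a = 1 := (hprim.pow_eq_one_iff_dvd _).2 (Nat.gcd_dvd_left _ _)
    have h3 : ζ ^ (m * r) = 1 := (hprim.pow_eq_one_iff_dvd _).2 (Nat.gcd_dvd_right _ _)
    have h4 := hc ζ h2 h3
    have h5 := (hprim.pow_eq_one_iff_dvd 1).1 (by rw [h4, one_pow])
    exact hg (Nat.dvd_one.1 h5)
  have h2 : Nat.Coprime a m := by
    have : Nat.Coprime a (m * r) := h1
    exact Nat.Coprime.coprime_mul_right_right this
  exact h2.dvd_of_dvd_mul_left h

/-- A nilpotent `m × m` matrix `X` over a division ring satisfies `X ^ m = 0`. -/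
theorem pow_eq_zero_of_nilpotent {D : Type} [DivisionRing D] {m : ℕ}
    (X : Matrix (Fin m) (Fin m) D) (hX : IsNilpotent X) : X ^ m = 0 := by
  obtain ⟨k, hk⟩ := hX
  have hpow : ∀ i, X.vecMulLinear ^ i = (X ^ i).vecMulLinear := by
    intro i
    induction i with
    | zero =>
      refine LinearMap.ext fun v => ?_
      simp
    | succ i ih =>
      refine LinearMap.ext fun v => ?_
      rw [pow_succ', Module.End.mul_apply, ih, Matrix.vecMulLinear_apply,
        Matrix.vecMulLinear_apply, Matrix.vecMulLinear_apply, Matrix.vecMul_vecMul, ← pow_succ]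
  have h1 : LinearMap.ker (X.vecMulLinear ^ (k + m)) = LinearMap.ker (X.vecMulLinear ^ m) := by
    have := Module.End.ker_pow_eq_ker_pow_finrank_of_le (f := X.vecMulLinear) (m := k + m)
      (by rw [finrank_fin_fun]; omega)
    rw [finrank_fin_fun] at this
    exact this
  have h2 : (X ^ (k + m)) = 0 := by rw [pow_add, hk, zero_mul]
  have h3 : ∀ v : Fin m → D, Matrix.vecMul v (X ^ m) = 0 := by
    intro v
    have h4 : v ∈ LinearMap.ker (X.vecMulLinear ^ (k + m)) := by
      rw [hpow, h2, LinearMap.mem_ker, Matrix.vecMulLinear_apply, Matrix.vecMul_zero]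
    rw [h1, hpow, LinearMap.mem_ker] at h4
    exact h4
  ext i j
  have := congrFun (h3 (Pi.single i 1)) j
  rw [Matrix.single_one_vecMul] at this
  exact this

section params

variable {W : Type} [Group W] {n : ℕ} (P : Param W n)

/-- the nilpotent element of a discrete parameter has rectangular Jordan type -/
theorem Param.rect (hn : 0 < n) : ∃ a p : ℕ, n = (a + 1) * (p + 1) ∧ P.e ^ (a + 1) = 0 ∧
    (P.e ^ a).rank = p + 1 ∧ nilpotencyClass P.e = a + 1 := by
  let L : Matrix (Fin n) (Fin n) ℂ ≃ₐ[ℂ] ((Fin n → ℂ) →ₗ[ℂ] (Fin n → ℂ)) := Matrix.toLinAlgEquiv'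
  have t : Triple (L P.h) (L P.e) (L P.f) := by
    refine ⟨?_, ?_, ?_⟩
    · rw [← map_mul, ← map_mul, ← map_sub, P.he, map_smul]
    · rw [← map_mul, ← map_mul, ← map_sub, P.hf, map_neg, map_smul]
    · rw [← map_mul, ← map_mul, ← map_sub, P.ef]
  obtain ⟨a, p, h1, h2, h3, h4⟩ := exists_rect (fun w => L (P.φ w)) t
    (fun w => by rw [← map_mul, ← map_mul, P.comm_e]) (fun w => by rw [← map_mul, ← map_mul, P.comm_h])
    (fun w => by rw [← map_mul, ← map_mul, P.comm_f]) P.irr
  rw [finrank_fin_fun] at h1 h4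
  have hp : p ≠ 0 := by
    rintro rfl
    omega
  obtain ⟨p, rfl⟩ := Nat.exists_eq_succ_of_ne_zero hp
  have h5 : P.e ^ (a + 1) = 0 := toLin_pow_eq_zero.1 h2
  refine ⟨a, p, h1, h5, by rw [← rk_matrix]; exact h3, ?_⟩
  rw [nilpotencyClass_eq_succ_iff]
  exact ⟨h5, fun h => h4 hn (toLin_pow_eq_zero.2 h)⟩

end params

section main

variable {k K D : Type} [Field k] [Field K] [Algebra k K] [DivisionRing D] [Algebra k D] {m n : ℕ}
  (Ψ : K ⊗[k] Matrix (Fin m) (Fin m) D ≃ₐ[K] Matrix (Fin n) (Fin n) K)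

/-- the algebra embedding `M m D → M n K` -/
noncomputable def emb : Matrix (Fin m) (Fin m) D →+* Matrix (Fin n) (Fin n) K :=
  (Ψ : K ⊗[k] Matrix (Fin m) (Fin m) D →+* Matrix (Fin n) (Fin n) K).comp
    (Algebra.TensorProduct.includeRight : Matrix (Fin m) (Fin m) D →ₐ[k] _).toRingHom

theorem emb_apply (X : Matrix (Fin m) (Fin m) D) : emb Ψ X = Ψ (1 ⊗ₜ X) := rfl

/-- closures of rectangular classes -/
theorem mem_zcl_of_pow [Infinite K] {p a : ℕ} (hn : n = (p + 1) * a)
    {Y Z : Matrix (Fin n) (Fin n) K} (h1 : Y ^ (p + 1) = 0) (h2 : (Y ^ p).rank = a)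
    (hZ : Z ^ (p + 1) = 0) : Z ∈ zcl (orb Y) := by
  intro f hf
  refine closure_rect p a hn Z hZ f ?_
  intro Y' hY' hr
  rw [rk_matrix] at hr
  exact hf Y' (conj_of_rect hn h1 h2 hY' hr)

/-- the geometric type of the regular nilpotent elements of `M m D` -/
theorem rank_regular (hm : 0 < m) (d : ℕ) (hn : n = m * d) (X : Matrix (Fin m) (Fin m) D)
    (hX0 : X ^ m = 0) (hX1 : X ^ (m - 1) ≠ 0) : ((Ψ (1 ⊗ₜ X)) ^ (m - 1)).rank = d := by
  obtain ⟨q, rfl⟩ := Nat.exists_eq_succ_of_ne_zero hm.ne'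
  rw [show q.succ - 1 = q from rfl] at hX1 ⊢
  have hemb : (Ψ (1 ⊗ₜ X)) ^ q = emb Ψ (X ^ q) := by rw [map_pow, emb_apply]
  have hemb' : (Ψ (1 ⊗ₜ X)) ^ (q + 1) = 0 := by
    rw [← emb_apply, ← map_pow, hX0, map_zero]
  apply le_antisymm
  · have := mul_rk_le (Matrix.toLinAlgEquiv' (Ψ (1 ⊗ₜ X))) q (toLin_pow_eq_zero.2 hemb')
    rw [rk_matrix, finrank_fin_fun] at this
    exact Nat.le_of_mul_le_mul_left (this.trans_eq hn) (Nat.succ_pos q)
  · -- the identity is a sum of matrix units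
    have h1 : (1 : Matrix (Fin (q + 1)) (Fin (q + 1)) D) = ∑ i, Matrix.single i i 1 := by
      ext x y
      rw [Matrix.sum_apply]
      by_cases h : x = y
      · subst h
        rw [Matrix.one_apply_eq, Finset.sum_eq_single x]
        · simp
        · intro b _ hb
          simp [Matrix.single, hb]
        · intro h; exact absurd (Finset.mem_univ _) h
      · rw [Matrix.one_apply_ne h]
        symm
        apply Finset.sum_eq_zero
        intro b _
        rw [Matrix.single_apply, if_neg]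
        rintro ⟨rfl, rfl⟩
        exact h rfl
    obtain ⟨x, y, hxy⟩ : ∃ x y, (X ^ q) x y ≠ 0 := by
      by_contra hcon
      push Not at hcon
      exact hX1 (Matrix.ext fun x y => hcon x y)
    have h2 : ∀ i : Fin (q + 1), (Matrix.single i i (1 : D)) =
        Matrix.single i x 1 * X ^ q * Matrix.single y i ((X ^ q) x y)⁻¹ := by
      intro i
      rw [Matrix.single_mul_mul_single, one_mul, mul_inv_cancel₀ hxy]
    have h3 : ∀ i : Fin (q + 1), (emb Ψ (Matrix.single i i (1 : D))).rank ≤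
        ((Ψ (1 ⊗ₜ X)) ^ q).rank := by
      intro i
      rw [h2 i, map_mul, map_mul, hemb]
      exact (Matrix.rank_mul_le_left _ _).trans (Matrix.rank_mul_le_right _ _)
    have h4 : ∀ s : Finset (Fin (q + 1)), (∑ i ∈ s, emb Ψ (Matrix.single i i (1 : D))).rank ≤
        s.card * ((Ψ (1 ⊗ₜ X)) ^ q).rank := by
      intro s
      induction s using Finset.induction_on with
      | empty => simp
      | insert i s hi ih =>
        rw [Finset.sum_insert hi, Finset.card_insert_of_notMem hi, add_mul, one_mul]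
        exact (rank_add_le _ _).trans ((add_le_add (h3 i) ih).trans_eq (Nat.add_comm _ _))
    have h5 := h4 Finset.univ
    rw [← map_sum, ← h1, map_one, Matrix.rank_one, Fintype.card_fin, Finset.card_univ,
      Fintype.card_fin] at h5
    exact Nat.le_of_mul_le_mul_left (hn.symm.trans_le h5) (Nat.succ_pos q)

/-- the vanishing of a power passes to the Zariski closure -/
theorem pow_eq_zero_of_mem_zcl {S : Set (Matrix (Fin n) (Fin n) K)} {j : ℕ}
    (hS : ∀ Y ∈ S, Y ^ j = 0) {Z : Matrix (Fin n) (Fin n) K} (hZ : Z ∈ zcl S) : Z ^ j = 0 := by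
  have key : ∀ (Y : Matrix (Fin n) (Fin n) K) (x y : Fin n),
      MvPolynomial.eval (fun t : Fin n × Fin n => Y t.1 t.2)
        (((Matrix.mvPolynomialX (Fin n) (Fin n) K) ^ j) x y) = (Y ^ j) x y := by
    intro Y x y
    have h := Matrix.mvPolynomialX_mapMatrix_eval Y
    have h2 := congrArg (fun M => (M ^ j) x y) h
    rw [← h2]
    show _ = (((MvPolynomial.eval fun t : Fin n × Fin n => Y t.1 t.2).mapMatrix
      (Matrix.mvPolynomialX (Fin n) (Fin n) K)) ^ j) x y
    rw [← map_pow]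
    rfl
  ext x y
  rw [← key Z x y]
  exact hZ _ fun Y hY => by rw [key Y x y, hS Y hY]; rfl

end main

end Pool.Agent.WF70
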