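import Mathlib

/-!
# Nilpotent endomorphisms: ranks of powers

`gap T i` is the number of Jordan blocks of size greater than `i` of a nilpotent endomorphism `T`.
-/

set_option autoImplicit false

namespace Pool.Agent.WF70

open Module Submodule

section gap

variable {K V : Type*} [Field K] [AddCommGroup V] [Module K V]

/-- the dimension of `ker T ∩ im T ^ i`, the number of Jordan blocks of size greater than `i` -/
noncomputable def gap (T : V →ₗ[K] V) (i : ℕ) : ℕ :=
  finrank K ↥(LinearMap.ker T ⊓ LinearMap.range (T ^ i))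

/-- the rank of `T ^ i` -/
noncomputable def rk (T : V →ₗ[K] V) (i : ℕ) : ℕ := finrank K ↥(LinearMap.range (T ^ i))

theorem rk_zero (T : V →ₗ[K] V) : rk T 0 = finrank K V := by
  rw [rk, pow_zero]
  have : LinearMap.range (1 : V →ₗ[K] V) = ⊤ := LinearMap.range_eq_top.2 Function.surjective_id
  rw [this, finrank_top]

variable [FiniteDimensional K V]

theorem rk_eq (T : V →ₗ[K] V) (i : ℕ) : rk T i = rk T (i + 1) + gap T i := by
  have h := LinearMap.finrank_range_add_finrank_ker (T.domRestrict (LinearMap.range (T ^ i)))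
  rw [LinearMap.range_domRestrict, LinearMap.ker_domRestrict] at h
  have e1 : Submodule.map T (LinearMap.range (T ^ i)) = LinearMap.range (T ^ (i + 1)) := by
    rw [← LinearMap.range_comp, pow_succ']
    rfl
  have e2 : finrank K ↥(Submodule.comap (LinearMap.range (T ^ i)).subtype (LinearMap.ker T)) =
      gap T i := by
    rw [gap, ← Submodule.finrank_map_subtype_eq, Submodule.map_comap_subtype, inf_comm]
  rw [e1, e2] at h
  exact h.symm

theorem gap_anti (T : V →ₗ[K] V) {i j : ℕ} (h : i ≤ j) : gap T j ≤ gap T i := by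
  apply Submodule.finrank_mono
  apply inf_le_inf le_rfl
  obtain ⟨k, rfl⟩ := Nat.exists_eq_add_of_le h
  rw [pow_add]
  exact LinearMap.range_comp_le_range _ _

theorem rk_anti (T : V →ₗ[K] V) {i j : ℕ} (h : i ≤ j) : rk T j ≤ rk T i := by
  induction j, h using Nat.le_induction with
  | base => exact le_rfl
  | succ j _ ih => have := rk_eq T j; omega

theorem sum_gap (T : V →ₗ[K] V) (p : ℕ) :
    finrank K V = ∑ i ∈ Finset.range p, gap T i + rk T p := by
  induction p with
  | zero => rw [Finset.sum_range_zero, zero_add, rk_zero]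
  | succ p ih => rw [Finset.sum_range_succ, ih, rk_eq T p]; ring

theorem rk_eq_zero {T : V →ₗ[K] V} {p : ℕ} : rk T p = 0 ↔ T ^ p = 0 := by
  rw [rk, Submodule.finrank_eq_zero, LinearMap.range_eq_bot]

theorem mul_gap_le (T : V →ₗ[K] V) (p : ℕ) : (p + 1) * gap T p ≤ finrank K V := by
  rw [sum_gap T (p + 1)]
  have : (p + 1) * gap T p ≤ ∑ i ∈ Finset.range (p + 1), gap T i := by
    calc (p + 1) * gap T p = ∑ _i ∈ Finset.range (p + 1), gap T p := by simp
      _ ≤ _ := Finset.sum_le_sum fun i hi => gap_anti T (by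
        have := Finset.mem_range.1 hi; omega)
  omega

theorem le_mul_gap (T : V →ₗ[K] V) (p : ℕ) (h : T ^ (p + 1) = 0) :
    finrank K V ≤ (p + 1) * gap T 0 := by
  rw [sum_gap T (p + 1), rk_eq_zero.2 h, add_zero]
  calc ∑ i ∈ Finset.range (p + 1), gap T i ≤ ∑ _i ∈ Finset.range (p + 1), gap T 0 :=
        Finset.sum_le_sum fun i _ => gap_anti T (Nat.zero_le i)
    _ = (p + 1) * gap T 0 := by simp

/-- if `T ^ (p + 1) = 0` then the rank of `T ^ p` is at most `dim V / (p + 1)` -/
theorem mul_rk_le (T : V →ₗ[K] V) (p : ℕ) (h : T ^ (p + 1) = 0) :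
    (p + 1) * rk T p ≤ finrank K V := by
  have h1 := rk_eq T p
  rw [rk_eq_zero.2 h, zero_add] at h1
  rw [h1]
  exact mul_gap_le T p

/-- all blocks of size `p + 1` -/
theorem gap_of_rect (T : V →ₗ[K] V) (p a : ℕ) (hn : finrank K V = (p + 1) * a)
    (h : T ^ (p + 1) = 0) (hr : rk T p = a) (i : ℕ) (hi : i ≤ p) : gap T i = a := by
  have h1 := rk_eq T p
  rw [rk_eq_zero.2 h, zero_add, hr] at h1
  have h2 := sum_gap T (p + 1)
  rw [rk_eq_zero.2 h, add_zero, hn] at h2
  have h3 : ∀ j ∈ Finset.range (p + 1), a ≤ gap T j := fun j hj => by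
    rw [h1]
    exact gap_anti T (by have := Finset.mem_range.1 hj; omega)
  have h4 : ∑ _j ∈ Finset.range (p + 1), a = ∑ j ∈ Finset.range (p + 1), gap T j := by
    rw [← h2]; simp
  exact ((Finset.sum_eq_sum_iff_of_le h3).1 h4 i (Finset.mem_range.2 (by omega))).symm

end gap

section flag

variable {K : Type*} [Field K]

theorem exists_between {V : Type*} [AddCommGroup V] [Module K V] [FiniteDimensional K V]
    (A B : Submodule K V) (h : A ≤ B) (m : ℕ) (h1 : finrank K A ≤ m) (h2 : m ≤ finrank K B) :
    ∃ F : Submodule K V, A ≤ F ∧ F ≤ B ∧ finrank K F = m := by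
  induction m, h1 using Nat.le_induction with
  | base => exact ⟨A, le_rfl, h, rfl⟩
  | succ m hm ih =>
    obtain ⟨F, hA, hB, hF⟩ := ih (by omega)
    have hlt : F < B := by
      apply lt_of_le_of_ne hB
      rintro rfl
      omega
    obtain ⟨v, hv, hv'⟩ := SetLike.exists_of_lt hlt
    refine ⟨F ⊔ K ∙ v, hA.trans le_sup_left, sup_le hB ?_, ?_⟩
    · rw [Submodule.span_singleton_le_iff_mem]; exact hv
    · have h0 : v ≠ 0 := by rintro rfl; exact hv' (zero_mem _)
      have h3 : F ⊓ (K ∙ v) = ⊥ := by
        rw [eq_bot_iff]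
        rintro x ⟨hx, hx'⟩
        obtain ⟨c, rfl⟩ := Submodule.mem_span_singleton.1 hx'
        by_cases hc : c = 0
        · rw [hc, zero_smul]; exact zero_mem _
        · exact absurd ((Submodule.smul_mem_iff F hc).1 hx) hv'
      have h4 := Submodule.finrank_sup_add_finrank_inf_eq F (K ∙ v)
      rw [h3, finrank_bot, finrank_span_singleton h0, hF] at h4
      exact h4

/-- A nilpotent endomorphism with `T ^ p = 0` of a space of dimension `p a` is strictly upper
triangular with `p` blocks of size `a` in a suitable basis. -/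
theorem exists_basis (a : ℕ) : ∀ (p : ℕ) (V : Type) [AddCommGroup V] [Module K V]
    [FiniteDimensional K V] (T : V →ₗ[K] V), finrank K V = p * a → T ^ p = 0 →
    ∃ b : Basis (Fin p × Fin a) K V, ∀ x,
      T (b x) ∈ Submodule.span K (b '' {y | y.1 < x.1}) := by
  intro p
  induction p with
  | zero =>
    intro V _ _ _ T hn _
    have : Subsingleton V := by
      rw [zero_mul] at hn
      exact finrank_zero_iff.1 hn
    exact ⟨Basis.empty V, fun x => x.1.elim0⟩
  | succ p ih =>
    intro V _ _ _ T hn hT
    have h1 : finrank K (LinearMap.range T) ≤ p * a := by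
      have e := le_mul_gap T p hT
      have e1 := rk_eq T 0
      rw [rk_zero, zero_add] at e1
      have e2 : rk T 1 = finrank K (LinearMap.range T) := by rw [rk, pow_one]
      rw [e2] at e1
      rw [hn] at e e1
      have e3 : a ≤ gap T 0 := Nat.le_of_mul_le_mul_left e (Nat.succ_pos p)
      have e4 : (p + 1) * a = p * a + a := by ring
      omega
    have h2 : p * a ≤ finrank K (LinearMap.ker (T ^ p)) := by
      have e := mul_rk_le T p hT
      rw [hn] at e
      have e3 : rk T p ≤ a := Nat.le_of_mul_le_mul_left e (Nat.succ_pos p)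
      have e4 := LinearMap.finrank_range_add_finrank_ker (T ^ p)
      rw [hn] at e4
      have e5 : (p + 1) * a = p * a + a := by ring
      rw [rk] at e3
      omega
    have h3 : LinearMap.range T ≤ LinearMap.ker (T ^ p) := by
      rintro _ ⟨v, rfl⟩
      rw [LinearMap.mem_ker, ← Module.End.mul_apply, ← pow_succ, hT]
      rfl
    obtain ⟨F, hF1, hF2, hF3⟩ := exists_between _ _ h3 _ h1 h2
    have hTF : ∀ x ∈ F, T x ∈ F := fun x _ => hF1 ⟨x, rfl⟩
    have hpow : (T.restrict hTF) ^ p = 0 := by
      rw [Module.End.pow_restrict p hTF]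
      ext x
      have : (T ^ p) x = 0 := LinearMap.mem_ker.1 (hF2 x.2)
      simpa using this
    obtain ⟨b, hb⟩ := ih F (T.restrict hTF) hF3 hpow
    obtain ⟨W, hW⟩ := Submodule.exists_isCompl F
    have hWa : finrank K W = a := by
      have := Submodule.finrank_add_eq_of_isCompl hW
      rw [hF3, hn] at this
      have e5 : (p + 1) * a = p * a + a := by ring
      omega
    let c : Basis (Fin a) K W := finBasisOfFinrankEq K W hWa
    let e : (Fin p × Fin a) ⊕ Fin a ≃ Fin (p + 1) × Fin a :=
      { toFun := Sum.elim (fun x => (x.1.castSucc, x.2)) fun j => (Fin.last p, j)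
        invFun := fun y => Fin.lastCases (motive := fun _ => (Fin p × Fin a) ⊕ Fin a)
          (Sum.inr y.2) (fun i => Sum.inl (i, y.2)) y.1
        left_inv := by
          rintro (⟨i, j⟩ | j) <;> simp
        right_inv := by
          rintro ⟨i, j⟩
          refine Fin.lastCases ?_ (fun i => ?_) i <;> simp }
    let B : Basis (Fin (p + 1) × Fin a) K V :=
      ((b.prod c).map (Submodule.prodEquivOfIsCompl F W hW)).reindex e
    have hB1 : ∀ i j, B (Fin.castSucc i, j) = (b (i, j) : V) := by
      intro i j
      have : e.symm (Fin.castSucc i, j) = Sum.inl (i, j) := by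
        rw [Equiv.symm_apply_eq]; rfl
      simp [B, this]
    have hB2 : ∀ j, B (Fin.last p, j) = (c j : V) := by
      intro j
      have : e.symm (Fin.last p, j) = Sum.inr j := by
        rw [Equiv.symm_apply_eq]; rfl
      simp [B, this]
    have key : ∀ (s : Set (Fin p × Fin a)) (v : F), v ∈ Submodule.span K (b '' s) →
        (v : V) ∈ Submodule.span K (B '' {y | ∃ x ∈ s, y = (x.1.castSucc, x.2)}) := by
      intro s v hv
      induction hv using Submodule.span_induction with
      | mem x hx =>
        obtain ⟨y, hy, rfl⟩ := hx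
        rw [← hB1]
        exact Submodule.subset_span ⟨_, ⟨y, hy, rfl⟩, rfl⟩
      | zero => exact zero_mem _
      | add x y _ _ hx hy => exact add_mem hx hy
      | smul t x _ hx => exact Submodule.smul_mem _ t hx
    refine ⟨B, ?_⟩
    rintro ⟨i, j⟩
    refine Fin.lastCases ?_ (fun i => ?_) i
    · have h5 : T (B (Fin.last p, j)) ∈ F := hF1 ⟨_, rfl⟩
      have h6 : (⟨_, h5⟩ : F) ∈ Submodule.span K (b '' Set.univ) := by
        rw [Set.image_univ, b.span_eq]; trivial
      refine Submodule.span_mono (Set.image_mono ?_) (key _ _ h6)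
      rintro _ ⟨x, _, rfl⟩
      exact Fin.castSucc_lt_last _
    · have h6 := hb (i, j)
      have h7 := key _ _ h6
      rw [hB1]
      refine Submodule.span_mono (Set.image_mono ?_) h7
      rintro _ ⟨x, hx, rfl⟩
      exact hx

end flag

end Pool.Agent.WF70
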