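import Pool.Agent.WF70.Main

/-!
# MP_eb9533_al: one factor

`k` is the base field, `K` its algebraic closure, `D` a central division algebra over `k` of dimension
`d ^ 2` (this follows from the existence of `Ψ`) with invariant `r / d`, `n = m d`. The pure inner
form is `PGL m D`, and the corresponding character of the centre `μ_n` of the dual group `SL n ℂ` is
`z ↦ z ^ (m r)`. The supercuspidal representations of `PGL m D` correspond to the discrete parameters
`P` for which this character is cuspidal, and `c X` is the coefficient of the orbit of `X` in the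
local character expansion.
-/

set_option autoImplicit false

namespace Pool.Agent.WF70

open TensorProduct

/-- The orbit dual to the nilpotent element of the parameter exists, it bounds the wavefront set, and
the wavefront set is equal to it if and only if the Jordan blocks of `e` have size `d` and the regular
nilpotent orbit of `M m D` occurs. -/
theorem one_factor {k K D W : Type} [Field k] [Field K] [IsAlgClosed K] [Algebra k K] [DivisionRing D]
    [Algebra k D] [Group W] {m d r : ℕ} (hm : 0 < m) (hd : 0 < d)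
    (Ψ : K ⊗[k] Matrix (Fin m) (Fin m) D ≃ₐ[K] Matrix (Fin (m * d)) (Fin (m * d)) K)
    (P : Param W (m * d)) (hP : P.IsCuspidal (m * r)) :
    ∃ Y : Matrix (Fin (m * d)) (Fin (m * d)) K,
      (∀ Z : Matrix (Fin (m * d)) (Fin (m * d)) K, IsDual P.e Z ↔ Z ∈ orb Y) ∧
      ∀ c : Matrix (Fin m) (Fin m) D → ℂ, (∀ O ∈ geoWF Ψ c, O ⊆ zcl (orb Y)) ∧
        (geoWF Ψ c = {orb Y} ↔
          nilpotencyClass P.e = d ∧ ∃ X, IsNilpotent X ∧ X ^ (m - 1) ≠ 0 ∧ c X ≠ 0) := by
  obtain ⟨a, p, hn, he0, her, hcl⟩ := P.rect (Nat.mul_pos hm hd)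
  have hn' : m * d = (p + 1) * (a + 1) := by rw [hn, Nat.mul_comm]
  -- arithmetic
  have hcusp : ∀ z : ℂ, z ^ (a + 1) = 1 → z ^ (m * r) = 1 → z = 1 := fun z h1 h2 =>
    hP z (by rw [hcl]; exact h1) h2
  have had : (a + 1) ∣ d := cuspidal_arith (Nat.succ_pos a) ⟨p + 1, hn⟩ hcusp
  have hmp : m ≤ p + 1 := by
    have h1 : a + 1 ≤ d := Nat.le_of_dvd hd had
    have h2 : m * (a + 1) ≤ (p + 1) * (a + 1) := (Nat.mul_le_mul_left m h1).trans_eq hn'
    exact Nat.le_of_mul_le_mul_right h2 (Nat.succ_pos a)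
  obtain ⟨Y, hY0, hYr⟩ := exists_rect_matrix K p (a + 1) hn'
  have hemb : ∀ (X : Matrix (Fin m) (Fin m) D) (i : ℕ),
      (Ψ (1 ⊗ₜ X)) ^ i = emb Ψ (X ^ i) := fun X i => by rw [map_pow, emb_apply]
  have hinj : ∀ X : Matrix (Fin m) (Fin m) D, emb Ψ X = 0 → X = 0 := fun X h => by
    have : Nonempty (Fin m) := ⟨⟨0, hm⟩⟩
    have : Nontrivial (Matrix (Fin (m * d)) (Fin (m * d)) K) := by
      have : Nonempty (Fin (m * d)) := ⟨⟨0, Nat.mul_pos hm hd⟩⟩
      infer_instance
    exact (emb Ψ).injective (h.trans (map_zero _).symm)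
  have hdual : ∀ Z : Matrix (Fin (m * d)) (Fin (m * d)) K, IsDual P.e Z ↔ Z ∈ orb Y := by
    intro Z
    rw [dual_iff hn he0 her Z]
    constructor
    · rintro ⟨h1, h2⟩
      exact conj_of_rect hn' hY0 hYr h1 h2
    · intro hZ
      obtain ⟨g, hg⟩ := orb_pow hZ (p + 1)
      refine ⟨by rw [hg, hY0, mul_zero, zero_mul], ?_⟩
      obtain ⟨g, hg⟩ := orb_pow hZ p
      rw [hg]
      have e1 : IsUnit g.inv.det := by
        refine IsUnit.of_mul_eq_one g.val.det ?_
        rw [← Matrix.det_mul, g.inv_val, Matrix.det_one]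
      have e2 : IsUnit g.val.det := by
        refine IsUnit.of_mul_eq_one g.inv.det ?_
        rw [← Matrix.det_mul, g.val_inv, Matrix.det_one]
      rw [Matrix.rank_mul_eq_left_of_isUnit_det _ _ e1, Matrix.rank_mul_eq_right_of_isUnit_det _ _ e2,
        hYr]
  -- every rational nilpotent orbit is in the closure
  have hpow : ∀ X : Matrix (Fin m) (Fin m) D, IsNilpotent X → X ^ m = 0 := fun X hX =>
    pow_eq_zero_of_nilpotent X hX
  have hle : ∀ X : Matrix (Fin m) (Fin m) D, IsNilpotent X → sat Ψ X ⊆ zcl (orb Y) := by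
    intro X hX Z hZ
    apply mem_zcl_of_pow hn' hY0 hYr
    obtain ⟨g, hg⟩ := orb_pow hZ (p + 1)
    obtain ⟨j, hj⟩ := Nat.exists_eq_add_of_le hmp
    rw [hg, hemb, hj, pow_add, hpow X hX, zero_mul, map_zero, mul_zero, zero_mul]
  refine ⟨Y, hdual, fun c => ⟨?_, ?_⟩⟩
  · rintro O ⟨⟨X, hX, _, rfl⟩, _⟩
    exact hle X hX
  · constructor
    · intro h
      have hmem : orb Y ∈ geoWF Ψ c := by rw [h]; exact Set.mem_singleton _
      obtain ⟨⟨X, hX, hc, hO⟩, _⟩ := hmem
      have h1 : Y ∈ orb (Ψ (1 ⊗ₜ X)) := by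
        have : Y ∈ sat Ψ X := by rw [← hO]; exact mem_orb_self Y
        exact this
      obtain ⟨g, hg⟩ := orb_pow h1 p
      have h2 : X ^ p ≠ 0 := by
        intro h0
        rw [hemb, h0, map_zero, mul_zero, zero_mul] at hg
        rw [hg, Matrix.rank_zero] at hYr
        exact absurd hYr (Nat.succ_ne_zero a).symm
      have h3 : p < m := by
        by_contra hcon
        push Not at hcon
        obtain ⟨j, rfl⟩ := Nat.exists_eq_add_of_le hcon
        exact h2 (by rw [pow_add, hpow X hX, zero_mul])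
      have h4 : m = p + 1 := le_antisymm hmp h3
      have h6 : m - 1 = p := by omega
      refine ⟨?_, X, hX, by rw [h6]; exact h2, hc⟩
      rw [hcl]
      have h5 : m * d = m * (a + 1) := by rw [hn', h4]
      exact (Nat.eq_of_mul_eq_mul_left hm h5).symm
    · rintro ⟨h1, X, hX, hX1, hc⟩
      rw [hcl] at h1
      have h2 : m = p + 1 := by
        have h3 : m * (a + 1) = (p + 1) * (a + 1) := by
          calc m * (a + 1) = m * d := by rw [h1]
            _ = _ := hn'
        exact Nat.eq_of_mul_eq_mul_right (Nat.succ_pos a) h3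
      have hreg : ∀ X : Matrix (Fin m) (Fin m) D, IsNilpotent X → X ^ (m - 1) ≠ 0 →
          sat Ψ X = orb Y := by
        intro X hX hX1
        have e1 := rank_regular Ψ hm d rfl X (hpow X hX) hX1
        have e2 : m - 1 = p := by omega
        rw [e2] at e1
        have e3 : (Ψ (1 ⊗ₜ X)) ^ (p + 1) = 0 := by
          rw [hemb, ← h2, hpow X hX, map_zero]
        have e4 : Ψ (1 ⊗ₜ X) ∈ orb Y := conj_of_rect hn' hY0 hYr e3 (e1.trans h1.symm)
        have e5 : Y ∈ orb (Ψ (1 ⊗ₜ X)) := conj_of_rect hn' e3 (e1.trans h1.symm) hY0 hYr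
        apply Set.Subset.antisymm
        · exact fun Z hZ => orb_trans hZ e4
        · exact fun Z hZ => orb_trans hZ e5
      apply Set.Subset.antisymm
      · rintro O ⟨⟨X', hX', hc', rfl⟩, hmax⟩
        apply Set.mem_singleton_iff.2
        apply hreg X' hX'
        intro h0
        have e1 : sat Ψ X ⊆ zcl (sat Ψ X') := by
          apply hmax X hX hc
          rw [hreg X hX hX1]
          exact hle X' hX'
        have e2 : (Ψ (1 ⊗ₜ X)) ^ (m - 1) = 0 := by
          apply pow_eq_zero_of_mem_zcl (S := sat Ψ X') _ (e1 (mem_orb_self _))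
          intro Z hZ
          obtain ⟨g, hg⟩ := orb_pow hZ (m - 1)
          rw [hg, hemb, h0, map_zero, mul_zero, zero_mul]
        rw [hemb] at e2
        exact hX1 (hinj _ e2)
      · rintro O rfl
        refine ⟨⟨X, hX, hc, (hreg X hX hX1).symm⟩, fun X' hX' _ _ => hle X' hX'⟩

end Pool.Agent.WF70
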